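import Pool.Agent.Helper93.LCY.DVStmts

/-!
Brackets on the local ring of a Du Val point: the ideal generated by all brackets is
`e (2x, g_y, g_z)`.
-/

open IsLocalRing

namespace LCY

namespace H33

variable {R : Type} [CommRing R] {br : R → R → R}

section der

theorem br_add_right (h : IsBD br) (a b c : R) : br a (b + c) = br a b + br a c := by
  rw [h.skew a (b + c), h.add_left, h.skew b a, h.skew c a]
  ring

theorem br_mul_right (h : IsBD br) (a b c : R) : br a (b * c) = b * br a c + c * br a b := by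
  rw [h.skew a (b * c), h.mul_left, h.skew b a, h.skew c a]
  ring

theorem br_zero_left (h : IsBD br) (a : R) : br 0 a = 0 := by
  have h1 := h.add_left 0 0 a
  rw [add_zero] at h1
  exact left_eq_add.1 h1

theorem br_neg_left (h : IsBD br) (a b : R) : br (-a) b = - br a b := by
  have h1 := h.add_left a (-a) b
  rw [add_neg_cancel, br_zero_left h] at h1
  exact (neg_eq_of_add_eq_zero_right h1.symm).symm

theorem br_sub_left (h : IsBD br) (a b c : R) : br (a - b) c = br a c - br b c := by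
  rw [sub_eq_add_neg, h.add_left, br_neg_left h, sub_eq_add_neg]

theorem br_pow_left (h : IsBD br) (a b : R) (n : ℕ) :
    br (a ^ (n + 1)) b = (n + 1 : ℕ) * a ^ n * br a b := by
  induction n with
  | zero => simp
  | succ n ih =>
    rw [pow_succ, h.mul_left, ih, pow_succ]
    push_cast
    ring

end der

/-- The ideal of all brackets. -/
def brI (br : R → R → R) : Ideal R := Ideal.span {r | ∃ a b, r = br a b}

theorem br_mem (a b : R) : br a b ∈ brI br := Ideal.subset_span ⟨a, b, rfl⟩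

/-- `{m ^ (n+1), R}` is contained in `m ^ n I`. -/
theorem br_pow_mem (h : IsBD br) (m : Ideal R) (n : ℕ) {a : R} (ha : a ∈ m ^ (n + 1)) (b : R) :
    br a b ∈ m ^ n * brI br := by
  induction n generalizing a with
  | zero =>
    rw [pow_zero, Ideal.one_eq_top, Ideal.top_mul]
    exact br_mem a b
  | succ n ih =>
    rw [pow_succ] at ha
    refine Submodule.mul_induction_on ha ?_ ?_
    · intro x hx y hy
      rw [h.mul_left]
      apply Ideal.add_mem
      · exact Ideal.mul_mem_mul hx (br_mem y b)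
      · have h1 := Ideal.mul_mem_mul hy (ih hx)
        rwa [← mul_assoc, ← pow_succ'] at h1
    · intro x y hx hy
      rw [h.add_left]
      exact Ideal.add_mem _ hx hy

variable [IsLocalRing R] [Algebra ℂ R]

/-- The ideal of all brackets is generated by the brackets of the generators of `m`. -/
theorem brI_le [IsNoetherianRing R] (h : IsBD br)
    (hc : ∀ (c : ℂ) (b : R), br (algebraMap ℂ R c) b = 0)
    (hres : ∀ a : R, ∃ c : ℂ, a - algebraMap ℂ R c ∈ maximalIdeal R) {x y z : R}
    (hm : maximalIdeal R = Ideal.span {x, y, z}) :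
    brI br ≤ Ideal.span {br y z, br z x, br x y} := by
  apply Submodule.le_of_le_smul_of_le_jacobson_bot (I := maximalIdeal R)
    ((isNoetherianRing_iff_ideal_fg R).1 inferInstance _)
    (IsLocalRing.maximalIdeal_le_jacobson _)
  set T : Ideal R := Ideal.span {br y z, br z x, br x y} ⊔ maximalIdeal R • brI br with hT
  have hTm : ∀ u v, u ∈ maximalIdeal R → v ∈ brI br → u * v ∈ T := fun u v hu hv =>
    (le_sup_right : _ ≤ T) (Ideal.mul_mem_mul hu hv)
  have hyz : br y z ∈ T := (le_sup_left : _ ≤ T) (Ideal.subset_span (by simp))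
  have hzx : br z x ∈ T := (le_sup_left : _ ≤ T) (Ideal.subset_span (by simp))
  have hxy : br x y ∈ T := (le_sup_left : _ ≤ T) (Ideal.subset_span (by simp))
  have hzy : br z y ∈ T := by rw [h.skew]; exact T.neg_mem hyz
  have hxz : br x z ∈ T := by rw [h.skew]; exact T.neg_mem hzx
  have hyx : br y x ∈ T := by rw [h.skew]; exact T.neg_mem hxy
  have hxm : x ∈ maximalIdeal R := by rw [hm]; exact Ideal.subset_span (by simp)
  have hym : y ∈ maximalIdeal R := by rw [hm]; exact Ideal.subset_span (by simp)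
  have hzm : z ∈ maximalIdeal R := by rw [hm]; exact Ideal.subset_span (by simp)
  -- reduction of the first entry
  have key : ∀ w : R, br x w ∈ T → br y w ∈ T → br z w ∈ T → ∀ a, br a w ∈ T := by
    intro w h1 h2 h3 a
    obtain ⟨c, hcm⟩ := hres a
    have ha := hcm
    rw [hm, Ideal.mem_span_insert] at ha
    obtain ⟨p, u, hu, hau⟩ := ha
    rw [Ideal.mem_span_pair] at hu
    obtain ⟨q, r, rfl⟩ := hu
    have ha2 : a = algebraMap ℂ R c + (p * x + (q * y + r * z)) := by rw [← hau]; ring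
    rw [ha2, h.add_left, h.add_left, h.add_left, h.mul_left, h.mul_left, h.mul_left, hc, zero_add]
    refine T.add_mem (T.add_mem (T.mul_mem_left _ h1) (hTm _ _ hxm (br_mem _ _)))
      (T.add_mem (T.add_mem (T.mul_mem_left _ h2) (hTm _ _ hym (br_mem _ _)))
        (T.add_mem (T.mul_mem_left _ h3) (hTm _ _ hzm (br_mem _ _))))
  have h0 : ∀ u, br u u ∈ T := fun u => by rw [h.alt]; exact T.zero_mem
  have hx := key x (h0 x) hyx hzx
  have hy := key y hxy (h0 y) hzy
  have hz := key z hxz hyz (h0 z)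
  refine Ideal.span_le.2 ?_
  rintro _ ⟨a, b, rfl⟩
  have sk : ∀ u v, br u v ∈ T → br v u ∈ T := fun u v huv => by
    rw [h.skew]; exact T.neg_mem huv
  exact key b (sk _ _ (hx b)) (sk _ _ (hy b)) (sk _ _ (hz b)) a

omit [Algebra ℂ R] in
theorem nak [IsNoetherianRing R] {M N : ℕ} {T : Ideal R}
    (h : maximalIdeal R ^ M ≤ T ⊔ maximalIdeal R ^ N) (hN : M + 1 ≤ N) :
    maximalIdeal R ^ M ≤ T := by
  apply Submodule.le_of_le_smul_of_le_jacobson_bot (I := maximalIdeal R)
    ((isNoetherianRing_iff_ideal_fg R).1 inferInstance _)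
    (IsLocalRing.maximalIdeal_le_jacobson _)
  refine h.trans (sup_le_sup_left ?_ _)
  rw [smul_eq_mul, ← pow_succ']
  exact Ideal.pow_le_pow_right hN

omit [IsLocalRing R] [Algebra ℂ R] in
theorem mem_span_pair_mul {x g t : R} {J : Ideal R} (ht : t ∈ Ideal.span {x, g} * J) :
    ∃ r ∈ J, ∃ r' ∈ J, t = x * r + g * r' := by
  rw [Ideal.span_insert, Ideal.sup_mul, Submodule.mem_sup] at ht
  obtain ⟨u, hu, w, hw, rfl⟩ := ht
  rw [Ideal.mem_span_singleton_mul] at hu hw
  obtain ⟨r, hr, rfl⟩ := hu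
  obtain ⟨r', hr', rfl⟩ := hw
  exact ⟨r, hr, r', hr', rfl⟩

theorem brk_main [IsDomain R] [IsNoetherianRing R] (h : IsBD br)
    (hc : ∀ (c : ℂ) (b : R), br (algebraMap ℂ R c) b = 0)
    (hres : ∀ a : R, ∃ c : ℂ, a - algebraMap ℂ R c ∈ maximalIdeal R)
    (hne : brI br ≠ ⊥) (M : ℕ)
    (hdiv : ∀ x g a b : R, maximalIdeal R ^ M ≤ Ideal.span {x, g} → g * a = x * b →
      ∃ e, a = x * e ∧ b = g * e)
    (d : R) (hd : d ∈ maximalIdeal R ^ M) (hd0 : d ≠ 0) (K : ℕ)
    (hK : ∀ u, d * u ∈ maximalIdeal R ^ K → u ∈ maximalIdeal R ^ 2)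
    {x y z g f : R} (hm : maximalIdeal R = Ideal.span {x, y, z})
    (hg : g ∈ maximalIdeal R) (hf : f ∈ maximalIdeal R)
    (hM : maximalIdeal R ^ M ≤ Ideal.span {x, g})
    (N : ℕ) (hN1 : M + 1 ≤ N) (hN2 : K ≤ N) (hN3 : 2 ≤ N)
    (hrel : ∀ w, 2 * x * br x w + g * br y w + f * br z w ∈
      maximalIdeal R ^ (M + N) * brI br) :
    ∃ e : R, e ≠ 0 ∧ (∀ a b, ∃ c ∈ maximalIdeal R, br a b = e * c) ∧
      ∃ A B C, br y z = e * A ∧ br z x = e * B ∧ br x y = e * C ∧
        A - 2 * x ∈ maximalIdeal R ^ 2 ∧ B - g ∈ maximalIdeal R ^ 2 ∧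
        C - f ∈ maximalIdeal R ^ 2 ∧ maximalIdeal R ^ M ≤ Ideal.span {A, B, C} := by
  set m := maximalIdeal R with hmdef
  set I := brI br with hI
  have hxm : x ∈ m := by rw [hm]; exact Ideal.subset_span (by simp)
  obtain ⟨hf2, hhf2⟩ : ∃ k : R, k * 2 = 1 := by
    refine ⟨algebraMap ℂ R (1 / 2), ?_⟩
    have : (2 : R) = algebraMap ℂ R 2 := (map_ofNat _ 2).symm
    rw [this, ← map_mul]
    norm_num
  have hle : m ^ (M + N) * I ≤ m ^ N * I :=
    Ideal.mul_mono_left (Ideal.pow_le_pow_right (by omega))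
  -- first relation
  have hrz := hrel z
  rw [pow_add, mul_assoc] at hrz
  obtain ⟨r, hr, r', hr', hrr⟩ := mem_span_pair_mul (Ideal.mul_mono_left hM hrz)
  rw [h.skew x z, h.alt] at hrr
  obtain ⟨e0, he1, he2⟩ := hdiv x g (br y z - r') (2 * br z x + r) hM (by linear_combination hrr)
  obtain ⟨e, rfl⟩ : ∃ e, e0 = 2 * e := ⟨hf2 * e0, by linear_combination (-e0) * hhf2⟩
  have hα : br y z = 2 * x * e + r' := by linear_combination he1
  have hβ : br z x = g * e - hf2 * r := by
    linear_combination hf2 * he2 + (g * e - br z x) * hhf2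
  -- the ideal of brackets
  have hI1 : I ≤ Ideal.span {x * e, g * e, br x y} := by
    apply Submodule.le_of_le_smul_of_le_jacobson_bot (I := m)
      ((isNoetherianRing_iff_ideal_fg R).1 inferInstance _)
      (IsLocalRing.maximalIdeal_le_jacobson _)
    set T : Ideal R := Ideal.span {x * e, g * e, br x y} ⊔ m • I with hT
    have hTm : m ^ N * I ≤ T := by
      refine le_trans (Ideal.mul_mono_left ?_) (le_sup_right : _ ≤ T)
      exact Ideal.pow_le_self (by omega)
    have h1 : x * e ∈ T := (le_sup_left : _ ≤ T) (Ideal.subset_span (by simp))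
    have h2 : g * e ∈ T := (le_sup_left : _ ≤ T) (Ideal.subset_span (by simp))
    have h3 : br x y ∈ T := (le_sup_left : _ ≤ T) (Ideal.subset_span (by simp))
    refine (brI_le h hc hres hm).trans ?_
    rw [Ideal.span_le]
    rintro _ (rfl | rfl | rfl)
    · rw [hα]
      refine T.add_mem ?_ (hTm hr')
      rw [mul_assoc]
      exact T.mul_mem_left _ h1
    · rw [hβ]
      exact T.sub_mem h2 (T.mul_mem_left _ (hTm hr))
    · exact h3
  have hI2 : I ≤ Ideal.span {e, br x y} := by
    refine hI1.trans ?_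
    rw [Ideal.span_le]
    have h1 : e ∈ Ideal.span {e, br x y} := Ideal.subset_span (by simp)
    rintro _ (rfl | rfl | rfl)
    · exact Ideal.mul_mem_left _ _ h1
    · exact Ideal.mul_mem_left _ _ h1
    · exact Ideal.subset_span (by simp)
  have hdec : ∀ t ∈ m ^ N * I, ∃ s ∈ m ^ N, ∃ c ∈ m ^ N, t = e * s + br x y * c := by
    intro t ht
    apply mem_span_pair_mul
    rw [mul_comm]
    exact Ideal.mul_mono_right hI2 ht
  -- the other two relations
  obtain ⟨s, hs, c, hcN, h3⟩ := hdec (2 * x * br x y - 2 * f * x * e) (by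
    have h1 := hle (hrel y)
    rw [h.alt, h.skew z y, hα] at h1
    have h2 := Ideal.add_mem _ h1 (Ideal.mul_mem_left _ f hr')
    have h4 : 2 * x * br x y + g * 0 + f * -(2 * x * e + r') + f * r'
        = 2 * x * br x y - 2 * f * x * e := by ring
    rwa [h4] at h2)
  obtain ⟨s', hs', c', hcN', h4⟩ := hdec (g * br x y - g * f * e) (by
    have h1 := hle (hrel x)
    rw [h.alt, h.skew y x, hβ] at h1
    have h2 := Ideal.neg_mem_iff _ |>.2 (Ideal.add_mem _ h1 (Ideal.mul_mem_left _ (f * hf2) hr))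
    have h4 : -(2 * x * 0 + g * -br x y + f * (g * e - hf2 * r) + f * hf2 * r)
        = g * br x y - g * f * e := by ring
    rwa [h4] at h2)
  have h3' : (2 * x - c) * br x y = (2 * f * x + s) * e := by linear_combination h3
  have h4' : (g - c') * br x y = (g * f + s') * e := by linear_combination h4
  have hM' : m ^ M ≤ Ideal.span {2 * x - c, g - c'} := by
    apply nak (N := N) _ hN1
    refine hM.trans ?_
    rw [Ideal.span_le]
    set T : Ideal R := Ideal.span {2 * x - c, g - c'} ⊔ m ^ N with hT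
    have t1 : 2 * x - c ∈ T := (le_sup_left : _ ≤ T) (Ideal.subset_span (by simp))
    have t2 : g - c' ∈ T := (le_sup_left : _ ≤ T) (Ideal.subset_span (by simp))
    have t3 : c ∈ T := (le_sup_right : _ ≤ T) hcN
    have t4 : c' ∈ T := (le_sup_right : _ ≤ T) hcN'
    intro u hu
    rcases hu with hu | hu
    · have h5 := T.mul_mem_left hf2 (T.add_mem t1 t3)
      have h6 : hf2 * (2 * x - c + c) = x := by linear_combination x * hhf2
      rw [h6] at h5
      rw [hu]
      exact h5
    · have h5 := T.add_mem t2 t4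
      rw [sub_add_cancel] at h5
      rw [hu]
      exact h5
  have hnz : 2 * x - c ≠ 0 ∨ g - c' ≠ 0 := by
    by_contra hcon
    push Not at hcon
    rw [hcon.1, hcon.2] at hM'
    have := hM' hd
    rw [Ideal.mem_span_pair] at this
    obtain ⟨a, b, hab⟩ := this
    apply hd0
    rw [← hab]
    ring
  have he0 : e ≠ 0 := by
    intro he
    have hγ : br x y = 0 := by
      rcases hnz with h5 | h5
      · apply mul_left_cancel₀ h5
        rw [h3', he, mul_zero, mul_zero]
      · apply mul_left_cancel₀ h5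
        rw [h4', he, mul_zero, mul_zero]
    apply hne
    rw [eq_bot_iff]
    refine hI2.trans ?_
    rw [he, hγ, Ideal.span_le]
    rintro _ (rfl | rfl) <;> exact Submodule.zero_mem _
  obtain ⟨κ, hκ1, hκ2⟩ := hdiv (2 * x - c) (g - c') (2 * f * x + s) (g * f + s') hM' (by
    apply mul_right_cancel₀ he0
    linear_combination (2 * x - c) * h4' - (g - c') * h3')
  have hγ : br x y = e * κ := by
    rcases hnz with h5 | h5
    · apply mul_left_cancel₀ h5
      rw [h3', hκ1]
      ring
    · apply mul_left_cancel₀ h5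
      rw [h4', hκ2]
      ring
  have hκf : κ - f ∈ m ^ 2 := by
    apply hK
    obtain ⟨a, b, hab⟩ := Ideal.mem_span_pair.1 (hM' hd)
    have h5 : d * (κ - f) = a * (s + c * f) + b * (s' + c' * f) := by
      rw [← hab]
      linear_combination (-a) * hκ1 - b * hκ2
    rw [h5]
    apply Ideal.pow_le_pow_right hN2
    exact Ideal.add_mem _ (Ideal.mul_mem_left _ _ (Ideal.add_mem _ hs (Ideal.mul_mem_right _ _ hcN)))
      (Ideal.mul_mem_left _ _ (Ideal.add_mem _ hs' (Ideal.mul_mem_right _ _ hcN')))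
  have hκm : κ ∈ m := by
    have h5 := m.add_mem (Ideal.pow_le_self two_ne_zero hκf) hf
    rwa [sub_add_cancel] at h5
  have hI3 : I ≤ Ideal.span {e} * m := by
    refine hI1.trans ?_
    rw [Ideal.span_le]
    have h1 : ∀ u ∈ m, e * u ∈ Ideal.span {e} * m := fun u hu =>
      Ideal.mul_mem_mul (Ideal.mem_span_singleton_self e) hu
    intro u hu
    rcases hu with hu | hu | hu
    · rw [hu, mul_comm x e]; exact h1 _ hxm
    · rw [hu, mul_comm g e]; exact h1 _ hg
    · rw [hu, hγ]; exact h1 _ hκm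
  have hdec2 : ∀ t ∈ m ^ N * I, ∃ ρ ∈ m ^ N, t = e * ρ := by
    intro t ht
    have h7 : I ≤ Ideal.span {e} := hI3.trans Ideal.mul_le_left
    have h6 : t ∈ m ^ N * Ideal.span {e} := Ideal.mul_mono_right h7 ht
    have h5 : t ∈ Ideal.span {e} * m ^ N := by
      rw [mul_comm]
      exact h6
    obtain ⟨ρ, hρ, hρt⟩ := Ideal.mem_span_singleton_mul.1 h5
    exact ⟨ρ, hρ, hρt.symm⟩
  obtain ⟨ρ, hρ, hρe⟩ := hdec2 r' hr'
  obtain ⟨σ, hσ, hσe⟩ := hdec2 r hr
  refine ⟨e, he0, ?_, 2 * x + ρ, g - hf2 * σ, κ, ?_, ?_, hγ, ?_, ?_, hκf, ?_⟩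
  · intro a b
    obtain ⟨c, hc, hce⟩ := Ideal.mem_span_singleton_mul.1 (hI3 (br_mem a b))
    exact ⟨c, hc, hce.symm⟩
  · rw [hα, hρe]; ring
  · rw [hβ, hσe]; ring
  · rw [add_sub_cancel_left]
    exact Ideal.pow_le_pow_right hN3 hρ
  · have h5 : g - hf2 * σ - g = -(hf2 * σ) := by ring
    rw [h5]
    exact Submodule.neg_mem _ (Ideal.mul_mem_left _ _ (Ideal.pow_le_pow_right hN3 hσ))
  · apply nak (N := N) _ hN1
    refine hM.trans ?_
    rw [Ideal.span_le]
    set T : Ideal R := Ideal.span {2 * x + ρ, g - hf2 * σ, κ} ⊔ m ^ N with hT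
    have t1 : 2 * x + ρ ∈ T := (le_sup_left : _ ≤ T) (Ideal.subset_span (by simp))
    have t2 : g - hf2 * σ ∈ T := (le_sup_left : _ ≤ T) (Ideal.subset_span (by simp))
    have t3 : ρ ∈ T := (le_sup_right : _ ≤ T) hρ
    have t4 : σ ∈ T := (le_sup_right : _ ≤ T) hσ
    intro u hu
    rcases hu with hu | hu
    · have h5 := T.mul_mem_left hf2 (T.sub_mem t1 t3)
      have h6 : hf2 * (2 * x + ρ - ρ) = x := by linear_combination x * hhf2
      rw [h6] at h5
      rw [hu]
      exact h5
    · have h5 := T.add_mem t2 (T.mul_mem_left hf2 t4)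
      rw [sub_add_cancel] at h5
      rw [hu]
      exact h5

end H33

end LCY
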