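import Pool.Agent.Helper93.LCY.DVStmts

/-!
The ring of power series in three variables modulo a series without terms of degree less
than two.
-/

open IsLocalRing MvPowerSeries

namespace LCY

namespace H33

noncomputable section

/-- The ideal of the series without constant term. -/
def MA : Ideal PS := Ideal.span {X 0, X 1, X 2}

theorem X_mem_MA (i : Fin 3) : (X i : PS) ∈ MA := by
  apply Ideal.subset_span
  fin_cases i <;> simp

theorem mem_MA {p : PS} : p ∈ MA ↔ coeff 0 p = 0 := by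
  constructor
  · intro h
    have h1 : MA ≤ RingHom.ker (constantCoeff (σ := Fin 3) (R := ℂ)) := by
      rw [MA, Ideal.span_le]
      rintro _ (rfl | rfl | rfl) <;> simp [RingHom.mem_ker]
    have h2 := h1 h
    rw [RingHom.mem_ker] at h2
    simpa using h2
  · intro h
    classical
    let p0 : PS := fun n => if n 0 ≠ 0 then coeff n p else 0
    let p1 : PS := fun n => if n 0 = 0 ∧ n 1 ≠ 0 then coeff n p else 0
    let p2 : PS := fun n => if n 0 = 0 ∧ n 1 = 0 then coeff n p else 0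
    have h0 : p = p0 + p1 + p2 := by
      ext n
      rw [map_add, map_add]
      change coeff n p = (if n 0 ≠ 0 then coeff n p else 0) +
        (if n 0 = 0 ∧ n 1 ≠ 0 then coeff n p else 0) +
        (if n 0 = 0 ∧ n 1 = 0 then coeff n p else 0)
      by_cases hn0 : n 0 = 0 <;> by_cases hn1 : n 1 = 0 <;> simp [hn0, hn1]
    have d0 : (X 0 : PS) ∣ p0 := by
      rw [X_dvd_iff]
      intro n hn
      change (if n 0 ≠ 0 then coeff n p else 0) = 0
      simp [hn]
    have d1 : (X 1 : PS) ∣ p1 := by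
      rw [X_dvd_iff]
      intro n hn
      change (if n 0 = 0 ∧ n 1 ≠ 0 then coeff n p else 0) = 0
      simp [hn]
    have d2 : (X 2 : PS) ∣ p2 := by
      rw [X_dvd_iff]
      intro n hn
      change (if n 0 = 0 ∧ n 1 = 0 then coeff n p else 0) = 0
      split_ifs with hc
      · have hn0 : n = 0 := by
          ext i
          fin_cases i
          · exact hc.1
          · exact hc.2
          · exact hn
        rw [hn0]
        exact h
      · rfl
    rw [h0]
    exact MA.add_mem (MA.add_mem (Ideal.mem_of_dvd _ d0 (X_mem_MA 0))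
      (Ideal.mem_of_dvd _ d1 (X_mem_MA 1))) (Ideal.mem_of_dvd _ d2 (X_mem_MA 2))

theorem ord_of_mem {k : ℕ} {p : PS} (h : p ∈ MA ^ k) : (k : ℕ∞) ≤ p.order := by
  induction k generalizing p with
  | zero => simp
  | succ k ih =>
    rw [pow_succ] at h
    refine Submodule.mul_induction_on h ?_ ?_
    · intro x hx y hy
      refine le_trans ?_ le_order_mul
      have h1 : (1 : ℕ∞) ≤ y.order := by
        rw [one_le_order_iff_constCoeff_eq_zero]
        have := mem_MA.1 hy
        simpa using this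
      push_cast
      exact add_le_add (ih hx) h1
    · intro x y hx hy
      exact le_trans (le_min hx hy) min_order_le_add

theorem cf_zero {k : ℕ} {p : PS} (h : p ∈ MA ^ k) {d : Fin 3 →₀ ℕ} (hd : d.degree < k) :
    coeff d p = 0 := by
  apply coeff_of_lt_order
  refine lt_of_lt_of_le ?_ (ord_of_mem h)
  exact_mod_cast hd

theorem cz {d : Fin 3 →₀ ℕ} {k : Fin 3} {n : ℕ} (h : d k < n) (p : PS) :
    coeff d (X k ^ n * p) = 0 :=
  X_pow_dvd_iff.1 (Dvd.intro _ rfl) d h

theorem cz1 {d : Fin 3 →₀ ℕ} {k : Fin 3} (h : d k = 0) (p : PS) :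
    coeff d (X k * p) = 0 :=
  X_dvd_iff.1 (Dvd.intro _ rfl) d h

/-- The class of a series. -/
abbrev qm (f : PS) : PS →+* PS ⧸ Ideal.span {f} := Ideal.Quotient.mk _

section

variable {f : PS} [IsLocalRing (PS ⧸ Ideal.span {f})]

theorem isUnit_of_notMem {p : PS} (h : p ∉ MA) : IsUnit p := by
  rw [isUnit_iff_constantCoeff]
  rw [mem_MA] at h
  exact Ne.isUnit h

theorem q_mem (hf : f ∈ MA) {p : PS} : qm f p ∈ maximalIdeal (PS ⧸ Ideal.span {f}) ↔ p ∈ MA := by
  rw [mem_maximalIdeal, mem_nonunits_iff]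
  constructor
  · intro h
    by_contra hc
    exact h ((isUnit_of_notMem hc).map (qm f))
  · intro h hu
    obtain ⟨u, hu⟩ := hu.exists_right_inv
    obtain ⟨u, rfl⟩ := Ideal.Quotient.mk_surjective u
    have h1 : qm f (p * u - 1) = 0 := by
      rw [map_sub, map_mul, map_one, hu, sub_self]
    rw [Ideal.Quotient.eq_zero_iff_mem] at h1
    have h2 : (Ideal.span {f} : Ideal PS) ≤ MA := by
      rw [Ideal.span_le]
      rintro _ rfl
      exact hf
    have h3 : (1 : PS) ∈ MA := by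
      have h4 := MA.sub_mem (MA.mul_mem_right u h) (h2 h1)
      rwa [sub_sub_cancel] at h4
    rw [mem_MA] at h3
    simp at h3

theorem q_map (hf : f ∈ MA) :
    maximalIdeal (PS ⧸ Ideal.span {f}) = MA.map (qm f) := by
  ext q
  obtain ⟨p, rfl⟩ := Ideal.Quotient.mk_surjective q
  rw [q_mem hf]
  constructor
  · exact Ideal.mem_map_of_mem _
  · intro h
    rw [Ideal.mem_map_iff_of_surjective _ Ideal.Quotient.mk_surjective] at h
    obtain ⟨r, hr, hrp⟩ := h
    rw [← q_mem hf, ← hrp, q_mem hf]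
    exact hr

theorem q_gen (hf : f ∈ MA) :
    maximalIdeal (PS ⧸ Ideal.span {f}) = Ideal.span {qm f (X 0), qm f (X 1), qm f (X 2)} := by
  rw [q_map hf, MA, Ideal.map_span]
  congr 1
  simp [Set.image_insert_eq, Set.image_singleton]

theorem q_pow (hf : f ∈ MA) (k : ℕ) {p : PS}
    (h : qm f p ∈ maximalIdeal (PS ⧸ Ideal.span {f}) ^ k) :
    ∃ v : PS, p - f * v ∈ MA ^ k := by
  rw [q_map hf, ← Ideal.map_pow,
    Ideal.mem_map_iff_of_surjective _ Ideal.Quotient.mk_surjective] at h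
  obtain ⟨r, hr, hrp⟩ := h
  rw [Ideal.Quotient.eq, Ideal.mem_span_singleton'] at hrp
  obtain ⟨v, hv⟩ := hrp
  refine ⟨-v, ?_⟩
  have h1 : p - f * -v = r := by linear_combination hv
  rw [h1]
  exact hr

theorem q_emb (hf : f ∈ MA ^ 2) (a b c : PS ⧸ Ideal.span {f})
    (h : a * qm f (X 0) + b * qm f (X 1) + c * qm f (X 2) ∈
      maximalIdeal (PS ⧸ Ideal.span {f}) ^ 2) :
    a ∈ maximalIdeal (PS ⧸ Ideal.span {f}) ∧ b ∈ maximalIdeal (PS ⧸ Ideal.span {f}) ∧
      c ∈ maximalIdeal (PS ⧸ Ideal.span {f}) := by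
  have hf1 : f ∈ MA := Ideal.pow_le_self two_ne_zero hf
  obtain ⟨a, rfl⟩ := Ideal.Quotient.mk_surjective a
  obtain ⟨b, rfl⟩ := Ideal.Quotient.mk_surjective b
  obtain ⟨c, rfl⟩ := Ideal.Quotient.mk_surjective c
  rw [← map_mul, ← map_mul, ← map_mul, ← map_add, ← map_add] at h
  obtain ⟨v, hv⟩ := q_pow hf1 2 h
  have h1 : X 0 * a + X 1 * b + X 2 * c ∈ MA ^ 2 := by
    have h2 := Ideal.add_mem _ hv (Ideal.mul_mem_right v _ hf)
    rw [sub_add_cancel] at h2
    have h3 : X 0 * a + X 1 * b + X 2 * c = a * X 0 + b * X 1 + c * X 2 := by ring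
    rw [h3]
    exact h2
  have key : ∀ (i : Fin 3) (p : PS), coeff (Finsupp.single i 1) (X i * p) = coeff 0 p := by
    intro i p
    have h2 := coeff_add_monomial_mul (R := ℂ) (Finsupp.single i 1) (0 : Fin 3 →₀ ℕ) p 1
    rw [add_zero, one_mul] at h2
    exact h2
  refine ⟨(q_mem hf1).2 (mem_MA.2 ?_), (q_mem hf1).2 (mem_MA.2 ?_), (q_mem hf1).2 (mem_MA.2 ?_)⟩
  · have h2 := cf_zero h1 (d := Finsupp.single 0 1) (by simp)
    rw [map_add, map_add, key 0, cz1 (by simp), cz1 (by simp)] at h2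
    simpa using h2
  · have h2 := cf_zero h1 (d := Finsupp.single 1 1) (by simp)
    rw [map_add, map_add, key 1, cz1 (by simp), cz1 (by simp)] at h2
    simpa using h2
  · have h2 := cf_zero h1 (d := Finsupp.single 2 1) (by simp)
    rw [map_add, map_add, key 2, cz1 (by simp), cz1 (by simp)] at h2
    simpa using h2

/-- If `f = X_0 ^ 2 + (terms of degree at least 3)`, a product of two elements of the maximal
ideal that lies in its cube. -/
theorem q_quad (hf : f - X 0 ^ 2 ∈ MA ^ 3) (a1 a2 a3 b1 b2 b3 : PS ⧸ Ideal.span {f})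
    (h : (a1 * qm f (X 0) + a2 * qm f (X 1) + a3 * qm f (X 2)) *
      (b1 * qm f (X 0) + b2 * qm f (X 1) + b3 * qm f (X 2)) ∈
      maximalIdeal (PS ⧸ Ideal.span {f}) ^ 3) :
    a2 * b2 ∈ maximalIdeal (PS ⧸ Ideal.span {f}) ∧ a3 * b3 ∈ maximalIdeal (PS ⧸ Ideal.span {f}) ∧
      a2 * b3 + a3 * b2 ∈ maximalIdeal (PS ⧸ Ideal.span {f}) := by
  have hf1 : f ∈ MA := by
    have h1 := MA.add_mem (Ideal.pow_le_self three_ne_zero hf)
      (Ideal.pow_mem_of_mem _ (X_mem_MA 0) 2 (by norm_num))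
    rwa [sub_add_cancel] at h1
  obtain ⟨a1, rfl⟩ := Ideal.Quotient.mk_surjective a1
  obtain ⟨a2, rfl⟩ := Ideal.Quotient.mk_surjective a2
  obtain ⟨a3, rfl⟩ := Ideal.Quotient.mk_surjective a3
  obtain ⟨b1, rfl⟩ := Ideal.Quotient.mk_surjective b1
  obtain ⟨b2, rfl⟩ := Ideal.Quotient.mk_surjective b2
  obtain ⟨b3, rfl⟩ := Ideal.Quotient.mk_surjective b3
  simp only [← map_mul, ← map_add] at h ⊢
  obtain ⟨v, hv⟩ := q_pow hf1 3 h
  have h1 : X 0 * (X 0 * (a1 * b1 - v) + X 1 * (a1 * b2 + a2 * b1) + X 2 * (a1 * b3 + a3 * b1)) +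
      (X 1 ^ 2 * (a2 * b2) + X 1 * (X 2 * (a2 * b3 + a3 * b2)) + X 2 ^ 2 * (a3 * b3)) ∈
      MA ^ 3 := by
    have h2 := Ideal.add_mem _ hv (Ideal.mul_mem_right v _ hf)
    have h3 : ∀ u w : PS, u - w ∈ MA ^ 3 → u = w + (u - w) := fun u w _ => by ring
    have h4 : (a1 * X 0 + a2 * X 1 + a3 * X 2) * (b1 * X 0 + b2 * X 1 + b3 * X 2) - f * v +
        (f - X 0 ^ 2) * v = X 0 * (X 0 * (a1 * b1 - v) + X 1 * (a1 * b2 + a2 * b1) +
        X 2 * (a1 * b3 + a3 * b1)) + (X 1 ^ 2 * (a2 * b2) + X 1 * (X 2 * (a2 * b3 + a3 * b2)) +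
        X 2 ^ 2 * (a3 * b3)) := by ring
    rw [← h4]
    exact h2
  have key : ∀ (i : Fin 3) (d : Fin 3 →₀ ℕ) (p : PS),
      coeff (Finsupp.single i 1 + d) (X i * p) = coeff d p := by
    intro i d p
    have h2 := coeff_add_monomial_mul (R := ℂ) (Finsupp.single i 1) d p 1
    rw [one_mul] at h2
    exact h2
  have key2 : ∀ (i : Fin 3) (p : PS), coeff (Finsupp.single i 1 + Finsupp.single i 1)
      (X i ^ 2 * p) = coeff 0 p := by
    intro i p
    rw [pow_two, mul_assoc, key]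
    have h2 := key i 0 p
    rwa [add_zero] at h2
  have key3 : ∀ (i j : Fin 3) (p : PS), coeff (Finsupp.single i 1 + Finsupp.single j 1)
      (X i * (X j * p)) = coeff 0 p := by
    intro i j p
    rw [key]
    have h2 := key j 0 p
    rwa [add_zero] at h2
  refine ⟨(q_mem hf1).2 (mem_MA.2 ?_), (q_mem hf1).2 (mem_MA.2 ?_), (q_mem hf1).2 (mem_MA.2 ?_)⟩
  · have h2 := cf_zero h1 (d := Finsupp.single 1 1 + Finsupp.single 1 1) (by simp)
    rw [map_add, map_add, map_add, cz1 (by simp), key2, mul_left_comm (X 1) (X 2),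
      cz1 (k := 2) (by simp), cz (k := 2) (by simp)] at h2
    simpa using h2
  · have h2 := cf_zero h1 (d := Finsupp.single 2 1 + Finsupp.single 2 1) (by simp)
    rw [map_add, map_add, map_add, cz1 (by simp), key2,
      cz1 (k := 1) (by simp), cz (k := 1) (by simp)] at h2
    simpa using h2
  · have h2 := cf_zero h1 (d := Finsupp.single 1 1 + Finsupp.single 2 1) (by simp)
    rw [map_add, map_add, map_add, cz1 (by simp), key3,
      cz (k := 1) (by simp), cz (k := 2) (by simp)] at h2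
    simpa using h2

end

end

end H33

end LCY
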