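import Pool.Agent.Helper33.LCY.Brk
import Pool.Agent.Helper33.LCY.PSQ

/-!
Coordinates of the local ring of a Du Val point that satisfy the equation up to a high power of
the maximal ideal.
-/

open IsLocalRing

namespace LCY

namespace H33

section transfer

variable {R Q : Type} [CommRing R] [CommRing Q] [IsLocalRing R] [IsLocalRing Q] {ι : R →+* Q}

theorem tr1 (hι : Dense ι) (a : R) : ι a ∈ maximalIdeal Q ↔ a ∈ maximalIdeal R := by
  have h := hι.mem 1 a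
  rwa [pow_one, pow_one] at h

theorem tr_x (hι : Dense ι) {X : Q} (hX : X ∈ maximalIdeal Q) {x : R} {n : ℕ} (hn : n ≠ 0)
    (hx : X - ι x ∈ maximalIdeal Q ^ n) : x ∈ maximalIdeal R := by
  rw [← tr1 hι]
  have h := (maximalIdeal Q).sub_mem hX (Ideal.pow_le_self hn hx)
  rwa [sub_sub_cancel] at h

variable {X Y Z : Q} {x y z : R} {n : ℕ}

theorem tr_gen [IsNoetherianRing R] (hι : Dense ι) (hQ : maximalIdeal Q = Ideal.span {X, Y, Z})
    (hn : 2 ≤ n) (hx : X - ι x ∈ maximalIdeal Q ^ n) (hy : Y - ι y ∈ maximalIdeal Q ^ n)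
    (hz : Z - ι z ∈ maximalIdeal Q ^ n) : maximalIdeal R = Ideal.span {x, y, z} := by
  have hXm : X ∈ maximalIdeal Q := by rw [hQ]; exact Ideal.subset_span (by simp)
  have hYm : Y ∈ maximalIdeal Q := by rw [hQ]; exact Ideal.subset_span (by simp)
  have hZm : Z ∈ maximalIdeal Q := by rw [hQ]; exact Ideal.subset_span (by simp)
  have hxm := tr_x hι hXm (by omega) hx
  have hym := tr_x hι hYm (by omega) hy
  have hzm := tr_x hι hZm (by omega) hz
  apply le_antisymm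
  · apply Submodule.le_of_le_smul_of_le_jacobson_bot (I := maximalIdeal R)
      ((isNoetherianRing_iff_ideal_fg R).1 inferInstance _)
      (IsLocalRing.maximalIdeal_le_jacobson _)
    intro a ha
    rw [← tr1 hι] at ha
    have ha' := ha
    rw [hQ, Ideal.mem_span_insert] at ha'
    obtain ⟨p, u, hu, hau⟩ := ha'
    rw [Ideal.mem_span_pair] at hu
    obtain ⟨q, r, rfl⟩ := hu
    obtain ⟨p', hp'⟩ := hι.approx 1 p
    obtain ⟨q', hq'⟩ := hι.approx 1 q
    obtain ⟨r', hr'⟩ := hι.approx 1 r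
    rw [pow_one] at hp' hq' hr'
    have h1 : ι (a - (p' * x + (q' * y + r' * z))) ∈ maximalIdeal Q ^ 2 := by
      have h2 : ι (a - (p' * x + (q' * y + r' * z))) =
          ((p - ι p') * X + (q - ι q') * Y + (r - ι r') * Z) +
          (ι p' * (X - ι x) + ι q' * (Y - ι y) + ι r' * (Z - ι z)) := by
        simp only [map_sub, map_add, map_mul, hau]
        ring
      rw [h2, pow_two]
      have h3 := Ideal.add_mem _ (Ideal.add_mem _ (Ideal.mul_mem_mul hp' hXm)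
        (Ideal.mul_mem_mul hq' hYm)) (Ideal.mul_mem_mul hr' hZm)
      refine Ideal.add_mem _ h3 ?_
      have h4 : maximalIdeal Q ^ n ≤ maximalIdeal Q * maximalIdeal Q := by
        rw [← pow_two]
        exact Ideal.pow_le_pow_right hn
      exact h4 (Ideal.add_mem _ (Ideal.add_mem _ (Ideal.mul_mem_left _ _ hx)
        (Ideal.mul_mem_left _ _ hy)) (Ideal.mul_mem_left _ _ hz))
    rw [hι.mem, pow_two] at h1
    have h5 : a = (p' * x + (q' * y + r' * z)) + (a - (p' * x + (q' * y + r' * z))) := by ring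
    rw [h5]
    refine Submodule.add_mem_sup ?_ h1
    have e1 : x ∈ Ideal.span {x, y, z} := Ideal.subset_span (by simp)
    have e2 : y ∈ Ideal.span {x, y, z} := Ideal.subset_span (by simp)
    have e3 : z ∈ Ideal.span {x, y, z} := Ideal.subset_span (by simp)
    exact Ideal.add_mem _ (Ideal.mul_mem_left _ _ e1)
      (Ideal.add_mem _ (Ideal.mul_mem_left _ _ e2) (Ideal.mul_mem_left _ _ e3))
  · rw [Ideal.span_le]
    intro u hu
    rcases hu with hu | hu | hu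
    · rw [hu]; exact hxm
    · rw [hu]; exact hym
    · rw [hu]; exact hzm

theorem tr_emb (hι : Dense ι)
    (hE : ∀ a b c : Q, a * X + b * Y + c * Z ∈ maximalIdeal Q ^ 2 →
      a ∈ maximalIdeal Q ∧ b ∈ maximalIdeal Q ∧ c ∈ maximalIdeal Q)
    (hn : 2 ≤ n) (hx : X - ι x ∈ maximalIdeal Q ^ n) (hy : Y - ι y ∈ maximalIdeal Q ^ n)
    (hz : Z - ι z ∈ maximalIdeal Q ^ n) (a b c : R)
    (h : a * x + b * y + c * z ∈ maximalIdeal R ^ 2) :
    a ∈ maximalIdeal R ∧ b ∈ maximalIdeal R ∧ c ∈ maximalIdeal R := by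
  rw [← hι.mem] at h
  have h1 := hE (ι a) (ι b) (ι c) (by
    have h2 : ι a * X + ι b * Y + ι c * Z = ι (a * x + b * y + c * z) +
        (ι a * (X - ι x) + ι b * (Y - ι y) + ι c * (Z - ι z)) := by
      simp only [map_add, map_mul]
      ring
    rw [h2]
    refine Ideal.add_mem _ h (Ideal.pow_le_pow_right hn ?_)
    exact Ideal.add_mem _ (Ideal.add_mem _ (Ideal.mul_mem_left _ _ hx)
        (Ideal.mul_mem_left _ _ hy)) (Ideal.mul_mem_left _ _ hz))
  rwa [tr1 hι, tr1 hι, tr1 hι] at h1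

theorem tr_quad (hι : Dense ι)
    (hE : ∀ a1 a2 a3 b1 b2 b3 : Q, (a1 * X + a2 * Y + a3 * Z) * (b1 * X + b2 * Y + b3 * Z) ∈
      maximalIdeal Q ^ 3 → a2 * b2 ∈ maximalIdeal Q ∧ a3 * b3 ∈ maximalIdeal Q ∧
      a2 * b3 + a3 * b2 ∈ maximalIdeal Q)
    (hn : 3 ≤ n) (hx : X - ι x ∈ maximalIdeal Q ^ n) (hy : Y - ι y ∈ maximalIdeal Q ^ n)
    (hz : Z - ι z ∈ maximalIdeal Q ^ n) (a1 a2 a3 b1 b2 b3 : R)
    (h : (a1 * x + a2 * y + a3 * z) * (b1 * x + b2 * y + b3 * z) ∈ maximalIdeal R ^ 3) :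
    a2 * b2 ∈ maximalIdeal R ∧ a3 * b3 ∈ maximalIdeal R ∧
      a2 * b3 + a3 * b2 ∈ maximalIdeal R := by
  rw [← hι.mem] at h
  have h1 := hE (ι a1) (ι a2) (ι a3) (ι b1) (ι b2) (ι b3) (by
    have h2 : (ι a1 * X + ι a2 * Y + ι a3 * Z) * (ι b1 * X + ι b2 * Y + ι b3 * Z) =
        ι ((a1 * x + a2 * y + a3 * z) * (b1 * x + b2 * y + b3 * z)) +
        ((ι a1 * (X - ι x) + ι a2 * (Y - ι y) + ι a3 * (Z - ι z)) *
          (ι b1 * X + ι b2 * Y + ι b3 * Z) +
        (ι a1 * ι x + ι a2 * ι y + ι a3 * ι z) *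
          (ι b1 * (X - ι x) + ι b2 * (Y - ι y) + ι b3 * (Z - ι z))) := by
      simp only [map_add, map_mul]
      ring
    have h3 : ∀ p q r : R, ι p * (X - ι x) + ι q * (Y - ι y) + ι r * (Z - ι z) ∈
        maximalIdeal Q ^ 3 := fun p q r => Ideal.pow_le_pow_right hn
      (Ideal.add_mem _ (Ideal.add_mem _ (Ideal.mul_mem_left _ _ hx)
        (Ideal.mul_mem_left _ _ hy)) (Ideal.mul_mem_left _ _ hz))
    rw [h2]
    exact Ideal.add_mem _ h (Ideal.add_mem _ (Ideal.mul_mem_right _ _ (h3 _ _ _))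
      (Ideal.mul_mem_left _ _ (h3 _ _ _))))
  rw [← map_mul, ← map_mul, ← map_mul, ← map_mul, ← map_add] at h1
  rwa [tr1 hι, tr1 hι, tr1 hι] at h1

end transfer

variable {R : Type} [CommRing R] [IsLocalRing R]

/-- Coordinates in normal form up to the power `N` of the maximal ideal. -/
structure NF (R : Type) [CommRing R] [IsLocalRing R] (M N : ℕ) (x y z g h : R) : Prop where
  gen : maximalIdeal R = Ideal.span {x, y, z}
  emb : ∀ a b c : R, a * x + b * y + c * z ∈ maximalIdeal R ^ 2 →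
    a ∈ maximalIdeal R ∧ b ∈ maximalIdeal R ∧ c ∈ maximalIdeal R
  hg : g ∈ maximalIdeal R
  hh : h ∈ maximalIdeal R
  prim : maximalIdeal R ^ M ≤ Ideal.span {x, g}
  rel : ∀ br : R → R → R, IsBD br → ∀ w, 2 * x * br x w + g * br y w + h * br z w ∈
    maximalIdeal R ^ N * brI br
  typ : (g - 2 * y ∈ maximalIdeal R ^ 2 ∧
      (h - 2 * z ∈ maximalIdeal R ^ 2 ∨ h ∈ maximalIdeal R ^ 2)) ∨
    (g ∈ maximalIdeal R ^ 2 ∧ h ∈ maximalIdeal R ^ 2 ∧ x ^ 2 ∈ maximalIdeal R ^ 3 ∧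
      ∀ a1 a2 a3 b1 b2 b3 : R,
        (a1 * x + a2 * y + a3 * z) * (b1 * x + b2 * y + b3 * z) ∈ maximalIdeal R ^ 3 →
        a2 * b2 ∈ maximalIdeal R ∧ a3 * b3 ∈ maximalIdeal R ∧
        a2 * b3 + a3 * b2 ∈ maximalIdeal R)

theorem pow_le3 {x y z : R} (hm : maximalIdeal R = Ideal.span {x, y, z}) (a b : ℕ) :
    maximalIdeal R ^ (1 + (a + b)) ≤
      Ideal.span {x} ⊔ (Ideal.span {y ^ a} ⊔ Ideal.span {z ^ b}) := by
  rw [hm, Ideal.span_insert, Ideal.span_insert]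
  refine Ideal.sup_pow_add_le_pow_sup_pow.trans ?_
  rw [pow_one]
  refine sup_le_sup_left ?_ _
  refine Ideal.sup_pow_add_le_pow_sup_pow.trans ?_
  rw [Ideal.span_singleton_pow, Ideal.span_singleton_pow]

theorem NF.build [IsNoetherianRing R] {Q : Type} [CommRing Q] [IsLocalRing Q] {ι : R →+* Q}
    (hι : Dense ι) {X Y Z : Q} (hQ : maximalIdeal Q = Ideal.span {X, Y, Z})
    (hE : ∀ a b c : Q, a * X + b * Y + c * Z ∈ maximalIdeal Q ^ 2 →
      a ∈ maximalIdeal Q ∧ b ∈ maximalIdeal Q ∧ c ∈ maximalIdeal Q)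
    {x y z F g h : R} {n N a b : ℕ} (hn : n = N + (1 + (a + b)) + 3)
    (hx : X - ι x ∈ maximalIdeal Q ^ n) (hy : Y - ι y ∈ maximalIdeal Q ^ n)
    (hz : Z - ι z ∈ maximalIdeal Q ^ n) (hF : F ∈ maximalIdeal R ^ n)
    (hd : ∀ br : R → R → R, IsBD br → ∀ w,
      br F w = 2 * x * br x w + g * br y w + h * br z w)
    (hg : g ∈ maximalIdeal R) (hh : h ∈ maximalIdeal R)
    (ha : y ^ a ∈ Ideal.span {x, g} ⊔ maximalIdeal R ^ n)
    (hb : z ^ b ∈ Ideal.span {x, g} ⊔ maximalIdeal R ^ n)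
    (typ : (g - 2 * y ∈ maximalIdeal R ^ 2 ∧
      (h - 2 * z ∈ maximalIdeal R ^ 2 ∨ h ∈ maximalIdeal R ^ 2)) ∨
    (g ∈ maximalIdeal R ^ 2 ∧ h ∈ maximalIdeal R ^ 2 ∧ x ^ 2 ∈ maximalIdeal R ^ 3 ∧
      ∀ a1 a2 a3 b1 b2 b3 : R,
        (a1 * x + a2 * y + a3 * z) * (b1 * x + b2 * y + b3 * z) ∈ maximalIdeal R ^ 3 →
        a2 * b2 ∈ maximalIdeal R ∧ a3 * b3 ∈ maximalIdeal R ∧
        a2 * b3 + a3 * b2 ∈ maximalIdeal R)) :
    NF R (1 + (a + b)) N x y z g h where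
  gen := tr_gen hι hQ (by omega) hx hy hz
  emb := tr_emb hι hE (by omega) hx hy hz
  hg := hg
  hh := hh
  prim := by
    apply nak (N := n) _ (by omega)
    refine (pow_le3 (tr_gen hι hQ (by omega) hx hy hz) a b).trans ?_
    refine sup_le ?_ (sup_le ?_ ?_)
    · rw [Ideal.span_singleton_le_iff_mem]
      exact (le_sup_left : _ ≤ Ideal.span {x, g} ⊔ maximalIdeal R ^ n)
        (Ideal.subset_span (by simp))
    · rw [Ideal.span_singleton_le_iff_mem]
      exact ha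
    · rw [Ideal.span_singleton_le_iff_mem]
      exact hb
  rel := by
    intro br hbr w
    rw [← hd br hbr w]
    have h1 : F ∈ maximalIdeal R ^ (n - 1 + 1) := by
      rw [Nat.sub_add_cancel (by omega)]
      exact hF
    exact Ideal.mul_mono_left (Ideal.pow_le_pow_right (by omega))
      (br_pow_mem hbr (maximalIdeal R) (n - 1) h1 w)
  typ := typ

end H33

end LCY
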