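import Pool.Agent.Helper33.LCY.Types

/-!
The bracket near a Du Val point on the boundary: linear algebra modulo the square of the maximal
ideal.
-/

open IsLocalRing

namespace LCY

namespace H33

section field

variable {k : Type} [Field k]

theorem ez {a b : k} (hb : b ≠ 0) (h : a * b = 0) : a = 0 :=
  (mul_eq_zero.1 h).resolve_right hb

theorem fld1 {a1 a2 a3 b1 b2 b3 t1 t2 t3 c d μ ν : k} (h2 : (2 : k) ≠ 0) (hμ : μ ≠ 0)
    (hν : ν = 2 ∨ ν = 0)
    (hD : a1 * (b2 * t3 - b3 * t2) - a2 * (b1 * t3 - b3 * t1) + a3 * (b1 * t2 - b2 * t1) ≠ 0)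
    (e1 : 2 * (t2 * a3 - t3 * a2) = c * a1) (e2 : μ * (t3 * a1 - t1 * a3) = c * a2)
    (e3 : ν * (t1 * a2 - t2 * a1) = c * a3)
    (f1 : 2 * (t2 * b3 - t3 * b2) = d * b1) (f2 : μ * (t3 * b1 - t1 * b3) = d * b2)
    (f3 : ν * (t1 * b2 - t2 * b1) = d * b3) : c ≠ 0 := by
  rintro rfl
  have g1 : t2 * a3 - t3 * a2 = 0 := by
    rw [zero_mul] at e1
    exact (mul_eq_zero.1 e1).resolve_left h2
  have g2 : t3 * a1 - t1 * a3 = 0 := by
    rw [zero_mul] at e2
    exact (mul_eq_zero.1 e2).resolve_left hμ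
  rcases hν with rfl | rfl
  · have g3 : t1 * a2 - t2 * a1 = 0 := by
      rw [zero_mul] at e3
      exact (mul_eq_zero.1 e3).resolve_left h2
    apply hD
    linear_combination b1 * g1 + b2 * g2 + b3 * g3
  · have hb3 : b3 ≠ 0 := by
      intro h
      apply hD
      rw [h]
      linear_combination b1 * g1 + b2 * g2
    have hm : t1 * a2 - t2 * a1 ≠ 0 := by
      intro h
      apply hD
      linear_combination b1 * g1 + b2 * g2 + b3 * h
    have hd : d = 0 := by
      rw [zero_mul] at f3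
      exact (mul_eq_zero.1 f3.symm).resolve_right hb3
    rw [hd, zero_mul] at f1 f2
    have g4 := (mul_eq_zero.1 f1).resolve_left h2
    have g5 := (mul_eq_zero.1 f2).resolve_left hμ
    have ht3 : t3 = 0 := by
      apply ez hm
      linear_combination (-t1) * g1 - t2 * g2
    rw [ht3] at g4 g5
    have ht2 : t2 = 0 := by
      apply ez hb3
      linear_combination g4
    have ht1 : t1 = 0 := by
      apply ez hb3
      linear_combination (-1 : k) * g5
    apply hm
    rw [ht1, ht2]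
    ring

theorem fld2 {a1 a2 a3 b1 b2 b3 t1 t2 t3 c d : k} (h2 : (2 : k) ≠ 0)
    (hD : a1 * (b2 * t3 - b3 * t2) - a2 * (b1 * t3 - b3 * t1) + a3 * (b1 * t2 - b2 * t1) ≠ 0)
    (e1 : 2 * (t2 * a3 - t3 * a2) = c * a1) (e2 : 0 = c * a2) (e3 : 0 = c * a3)
    (f1 : 2 * (t2 * b3 - t3 * b2) = d * b1) (f2 : 0 = d * b2) (f3 : 0 = d * b3) :
    t2 = 0 ∧ t3 = 0 := by
  have hc : c = 0 := by
    by_contra hc
    have h1 := (mul_eq_zero.1 e2.symm).resolve_left hc
    have h3 := (mul_eq_zero.1 e3.symm).resolve_left hc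
    rw [h1, h3] at e1
    have h4 : a1 = 0 := by
      apply ez hc
      linear_combination (-1 : k) * e1
    apply hD
    rw [h1, h3, h4]
    ring
  have hd : d = 0 := by
    by_contra hd
    have h1 := (mul_eq_zero.1 f2.symm).resolve_left hd
    have h3 := (mul_eq_zero.1 f3.symm).resolve_left hd
    rw [h1, h3] at f1
    have h4 : b1 = 0 := by
      apply ez hd
      linear_combination (-1 : k) * f1
    apply hD
    rw [h1, h3, h4]
    ring
  rw [hc, zero_mul] at e1
  rw [hd, zero_mul] at f1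
  have g1 := (mul_eq_zero.1 e1).resolve_left h2
  have g2 := (mul_eq_zero.1 f1).resolve_left h2
  constructor
  · by_contra ht
    apply hD
    apply mul_left_cancel₀ ht
    linear_combination (a1 * t2 * (-1 : k) - a2 * t1 * (-1 : k)) * g2 + (b1 * t2 - b2 * t1) * g1
  · by_contra ht
    apply hD
    apply mul_left_cancel₀ ht
    linear_combination (-(a1 * t3) + a3 * t1) * g2 + (b1 * t3 - b3 * t1) * g1

theorem fld3 {a1 a2 a3 b1 b2 b3 t1 t2 t3 : k}
    (hD : a1 * (b2 * t3 - b3 * t2) - a2 * (b1 * t3 - b3 * t1) + a3 * (b1 * t2 - b2 * t1) ≠ 0)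
    (ht2 : t2 = 0) (ht3 : t3 = 0) (g1 : a2 * b2 = 0)
    (g3 : a2 * b3 + a3 * b2 = 0) : False := by
  apply hD
  have h1 : (a2 * b3 - a3 * b2) ^ 2 = 0 := by
    linear_combination (a2 * b3 + a3 * b2) * g3 - 4 * a3 * b3 * g1
  have h2 : a2 * b3 - a3 * b2 = 0 := pow_eq_zero_iff (two_ne_zero) |>.1 h1
  rw [ht2, ht3]
  linear_combination t1 * h2

theorem fld_det {a1 a2 a3 b1 b2 b3 t1 t2 t3 p11 p12 p13 p21 p22 p23 p31 p32 p33 : k}
    (e11 : p11 * a1 + p12 * b1 + p13 * t1 = 1) (e12 : p11 * a2 + p12 * b2 + p13 * t2 = 0)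
    (e13 : p11 * a3 + p12 * b3 + p13 * t3 = 0)
    (e21 : p21 * a1 + p22 * b1 + p23 * t1 = 0) (e22 : p21 * a2 + p22 * b2 + p23 * t2 = 1)
    (e23 : p21 * a3 + p22 * b3 + p23 * t3 = 0)
    (e31 : p31 * a1 + p32 * b1 + p33 * t1 = 0) (e32 : p31 * a2 + p32 * b2 + p33 * t2 = 0)
    (e33 : p31 * a3 + p32 * b3 + p33 * t3 = 1) :
    a1 * (b2 * t3 - b3 * t2) - a2 * (b1 * t3 - b3 * t1) + a3 * (b1 * t2 - b2 * t1) ≠ 0 := by
  intro h
  have h1 : (!![p11, p12, p13; p21, p22, p23; p31, p32, p33] : Matrix (Fin 3) (Fin 3) k) *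
      !![a1, a2, a3; b1, b2, b3; t1, t2, t3] = 1 := by
    ext i j
    fin_cases i <;> fin_cases j <;>
      simp [Matrix.mul_apply, Fin.sum_univ_three, e11, e12, e13, e21, e22, e23, e31, e32, e33]
  have h2 := congrArg Matrix.det h1
  rw [Matrix.det_mul, Matrix.det_one] at h2
  have h3 : (!![a1, a2, a3; b1, b2, b3; t1, t2, t3] : Matrix (Fin 3) (Fin 3) k).det = 0 := by
    rw [Matrix.det_fin_three, ← h]
    simp
    ring
  rw [h3, mul_zero] at h2
  exact zero_ne_one h2

end field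

section ring

variable {R : Type} [CommRing R] [IsLocalRing R] {x y z : R}

theorem coords (hm : maximalIdeal R = Ideal.span {x, y, z}) {u : R} (hu : u ∈ maximalIdeal R) :
    ∃ u1 u2 u3, u = u1 * x + u2 * y + u3 * z := by
  rw [hm, Ideal.mem_span_insert] at hu
  obtain ⟨u1, w, hw, rfl⟩ := hu
  rw [Ideal.mem_span_pair] at hw
  obtain ⟨u2, u3, rfl⟩ := hw
  exact ⟨u1, u2, u3, by ring⟩

theorem GE.res (hG : GE R x y z) {a b c a' b' c' : R}
    (h : (a * x + b * y + c * z) - (a' * x + b' * y + c' * z) ∈ maximalIdeal R ^ 2) :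
    residue R a = residue R a' ∧ residue R b = residue R b' ∧ residue R c = residue R c' := by
  have h1 : (a - a') * x + (b - b') * y + (c - c') * z ∈ maximalIdeal R ^ 2 := by
    have h2 : (a - a') * x + (b - b') * y + (c - c') * z =
      (a * x + b * y + c * z) - (a' * x + b' * y + c' * z) := by ring
    rw [h2]
    exact h
  obtain ⟨h3, h4, h5⟩ := hG.emb _ _ _ h1
  rw [← residue_eq_zero_iff, map_sub, sub_eq_zero] at h3 h4 h5
  exact ⟨h3, h4, h5⟩

/-- the determinant of the coordinates of three elements, modulo the maximal ideal -/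
noncomputable def D3 (R : Type) [CommRing R] [IsLocalRing R] (a1 a2 a3 b1 b2 b3 t1 t2 t3 : R) :
    ResidueField R :=
  residue R a1 * (residue R b2 * residue R t3 - residue R b3 * residue R t2) -
    residue R a2 * (residue R b1 * residue R t3 - residue R b3 * residue R t1) +
    residue R a3 * (residue R b1 * residue R t2 - residue R b2 * residue R t1)

theorem det_ne (hG : GE R x y z) {a b t a1 a2 a3 b1 b2 b3 t1 t2 t3 : R}
    (ha : a = a1 * x + a2 * y + a3 * z) (hb : b = b1 * x + b2 * y + b3 * z)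
    (ht : t = t1 * x + t2 * y + t3 * z) (hm : maximalIdeal R = Ideal.span {a, b, t}) :
    D3 R a1 a2 a3 b1 b2 b3 t1 t2 t3 ≠ 0 := by
  obtain ⟨p11, p12, p13, h1⟩ := coords hm hG.mem.1
  obtain ⟨p21, p22, p23, h2⟩ := coords hm hG.mem.2.1
  obtain ⟨p31, p32, p33, h3⟩ := coords hm hG.mem.2.2
  have key : ∀ p q r u v w : R, u * x + v * y + w * z = p * a + q * b + r * t →
      residue R (p * a1 + q * b1 + r * t1) = residue R u ∧
      residue R (p * a2 + q * b2 + r * t2) = residue R v ∧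
      residue R (p * a3 + q * b3 + r * t3) = residue R w := by
    intro p q r u v w h
    apply hG.res
    have h5 : (p * a1 + q * b1 + r * t1) * x + (p * a2 + q * b2 + r * t2) * y +
      (p * a3 + q * b3 + r * t3) * z - (u * x + v * y + w * z) = 0 := by
      rw [h, ha, hb, ht]
      ring
    rw [h5]
    exact Submodule.zero_mem _
  obtain ⟨k11, k12, k13⟩ := key p11 p12 p13 1 0 0 (by rw [← h1]; ring)
  obtain ⟨k21, k22, k23⟩ := key p21 p22 p23 0 1 0 (by rw [← h2]; ring)
  obtain ⟨k31, k32, k33⟩ := key p31 p32 p33 0 0 1 (by rw [← h3]; ring)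
  simp only [map_add, map_mul, map_one, map_zero] at k11 k12 k13 k21 k22 k23 k31 k32 k33
  exact fld_det k11 k12 k13 k21 k22 k23 k31 k32 k33

theorem ind3 (hG : GE R x y z) {a b t : R} (hm : maximalIdeal R = Ideal.span {a, b, t}) :
    GE R a b t := by
  have ham : a ∈ maximalIdeal R := by rw [hm]; exact Ideal.subset_span (by simp)
  have hbm : b ∈ maximalIdeal R := by rw [hm]; exact Ideal.subset_span (by simp)
  have htm : t ∈ maximalIdeal R := by rw [hm]; exact Ideal.subset_span (by simp)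
  refine ⟨hm, ?_⟩
  intro r1 r2 r3 h
  obtain ⟨a1, a2, a3, ha⟩ := coords hG.gen ham
  obtain ⟨b1, b2, b3, hb⟩ := coords hG.gen hbm
  obtain ⟨t1, t2, t3, ht⟩ := coords hG.gen htm
  have hD := det_ne hG ha hb ht hm
  obtain ⟨k1, k2, k3⟩ := hG.res (a := r1 * a1 + r2 * b1 + r3 * t1)
    (b := r1 * a2 + r2 * b2 + r3 * t2) (c := r1 * a3 + r2 * b3 + r3 * t3) (a' := 0) (b' := 0)
    (c' := 0) (by
      have h5 : (r1 * a1 + r2 * b1 + r3 * t1) * x + (r1 * a2 + r2 * b2 + r3 * t2) * y +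
        (r1 * a3 + r2 * b3 + r3 * t3) * z - (0 * x + 0 * y + 0 * z) =
        r1 * a + r2 * b + r3 * t := by
        rw [ha, hb, ht]
        ring
      rw [h5]
      exact h)
  simp only [map_add, map_mul, map_zero] at k1 k2 k3
  unfold D3 at hD
  refine ⟨(residue_eq_zero_iff _).1 ?_, (residue_eq_zero_iff _).1 ?_,
    (residue_eq_zero_iff _).1 ?_⟩
  · apply ez hD
    linear_combination (residue R b2 * residue R t3 - residue R b3 * residue R t2) * k1 -
      (residue R b1 * residue R t3 - residue R b3 * residue R t1) * k2 +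
      (residue R b1 * residue R t2 - residue R b2 * residue R t1) * k3
  · apply ez hD
    linear_combination (-(residue R a2 * residue R t3 - residue R a3 * residue R t2)) * k1 +
      (residue R a1 * residue R t3 - residue R a3 * residue R t1) * k2 -
      (residue R a1 * residue R t2 - residue R a2 * residue R t1) * k3
  · apply ez hD
    linear_combination (residue R a2 * residue R b3 - residue R a3 * residue R b2) * k1 -
      (residue R a1 * residue R b3 - residue R a3 * residue R b1) * k2 +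
      (residue R a1 * residue R b2 - residue R a2 * residue R b1) * k3

/-- two smooth curves that meet transversally, with principal union -/
structure CD (R : Type) [CommRing R] [IsLocalRing R] (e : R) (P P' : Ideal R) : Prop where
  inf : P ⊓ P' = Ideal.span {e}
  sup : P ⊔ P' = maximalIdeal R
  gP : ∃ b0 ∈ maximalIdeal R, maximalIdeal R ≤ P ⊔ Ideal.span {b0}
  gP' : ∃ a0 ∈ maximalIdeal R, maximalIdeal R ≤ P' ⊔ Ideal.span {a0}

theorem cd_aux {e : R} {P P' : Ideal R} (inf : P ⊓ P' = Ideal.span {e})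
    (sup : P ⊔ P' = maximalIdeal R)
    (gP : ∃ b0 ∈ maximalIdeal R, maximalIdeal R ≤ P ⊔ Ideal.span {b0}) :
    ∃ b, P' = Ideal.span {b, e} := by
  obtain ⟨b0, hb0, hb⟩ := gP
  have hb0' := hb0
  rw [← sup, Submodule.mem_sup] at hb0'
  obtain ⟨p, hp, b, hbP', hpb⟩ := hb0'
  have he : e ∈ P ⊓ P' := by rw [inf]; exact Ideal.mem_span_singleton_self e
  refine ⟨b, le_antisymm ?_ ?_⟩
  · intro u hu
    have hum : u ∈ maximalIdeal R := by rw [← sup]; exact Submodule.mem_sup_right hu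
    obtain ⟨v, hv, w, hw, hvw⟩ := Submodule.mem_sup.1 (hb hum)
    obtain ⟨r, rfl⟩ := Ideal.mem_span_singleton'.1 hw
    have h1 : u - r * b ∈ P ⊓ P' := by
      refine ⟨?_, P'.sub_mem hu (P'.mul_mem_left _ hbP')⟩
      have h2 : u - r * b = v + r * p := by
        rw [← hvw, ← hpb]
        ring
      rw [h2]
      exact P.add_mem hv (P.mul_mem_left _ hp)
    rw [inf, Ideal.mem_span_singleton'] at h1
    obtain ⟨s, hs⟩ := h1
    rw [Ideal.mem_span_pair]
    exact ⟨r, s, by linear_combination hs⟩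
  · rw [Ideal.span_le]
    intro u hu
    rcases hu with hu | hu
    · rw [hu]; exact hbP'
    · rw [hu]; exact he.2

theorem CD.exists_ab {e : R} {P P' : Ideal R} (h : CD R e P P') (hG : GE R x y z) :
    ∃ a b s, P = Ideal.span {a, e} ∧ P' = Ideal.span {b, e} ∧
      maximalIdeal R = Ideal.span {a, b, e} ∧ a * b = s * e ^ 2 := by
  obtain ⟨b, hb⟩ := cd_aux h.inf h.sup h.gP
  obtain ⟨a, ha⟩ := cd_aux (P := P') (P' := P) (by rw [inf_comm]; exact h.inf)
    (by rw [sup_comm]; exact h.sup) h.gP'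
  have key : ∀ a b, P = Ideal.span {a, e} → P' = Ideal.span {b, e} →
      maximalIdeal R = Ideal.span {a, b, e} := by
    intro a b ha hb
    rw [← h.sup, ha, hb, Ideal.span_insert a {e}, Ideal.span_insert b {e},
      Ideal.span_insert a {b, e}, Ideal.span_insert b {e}]
    apply le_antisymm
    · exact sup_le (sup_le le_sup_left (le_sup_right.trans le_sup_right)) le_sup_right
    · exact sup_le (le_sup_left.trans le_sup_left) le_sup_right
  have hG1 := ind3 hG (key a b ha hb)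
  have haP : a ∈ P := by rw [ha]; exact Ideal.subset_span (by simp)
  have hbP' : b ∈ P' := by rw [hb]; exact Ideal.subset_span (by simp)
  have hab : a * b ∈ P ⊓ P' := ⟨P.mul_mem_right _ haP, P'.mul_mem_left _ hbP'⟩
  rw [h.inf, Ideal.mem_span_singleton'] at hab
  obtain ⟨g, hg⟩ := hab
  have hgm : g ∈ maximalIdeal R := by
    rw [mem_maximalIdeal, mem_nonunits_iff]
    intro hu
    obtain ⟨g', hg'⟩ := hu.exists_left_inv
    have h1 : 0 * a + 0 * b + 1 * e ∈ maximalIdeal R ^ 2 := by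
      have h2 : 0 * a + 0 * b + 1 * e = g' * (a * b) := by
        rw [← hg, ← mul_assoc, hg']
        ring
      rw [h2, pow_two]
      exact Ideal.mul_mem_left _ _ (Ideal.mul_mem_mul hG1.mem.1 hG1.mem.2.1)
    exact (Ideal.ne_top_iff_one _).1 (maximalIdeal.isMaximal R).ne_top (hG1.emb _ _ _ h1).2.2
  obtain ⟨u, w, s, hs⟩ := coords hG1.gen hgm
  have hP : P = Ideal.span {a - w * e, e} := by
    rw [ha]
    apply le_antisymm
    · rw [Ideal.span_le]
      intro v hv
      rcases hv with hv | hv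
      · rw [hv]
        exact Ideal.mem_span_pair.2 ⟨1, w, by ring⟩
      · rw [hv]
        exact Ideal.subset_span (by simp)
    · rw [Ideal.span_le]
      intro v hv
      rcases hv with hv | hv
      · rw [hv]
        exact Ideal.mem_span_pair.2 ⟨1, -w, by ring⟩
      · rw [hv]
        exact Ideal.subset_span (by simp)
  have hP' : P' = Ideal.span {b - u * e, e} := by
    rw [hb]
    apply le_antisymm
    · rw [Ideal.span_le]
      intro v hv
      rcases hv with hv | hv
      · rw [hv]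
        exact Ideal.mem_span_pair.2 ⟨1, u, by ring⟩
      · rw [hv]
        exact Ideal.subset_span (by simp)
    · rw [Ideal.span_le]
      intro v hv
      rcases hv with hv | hv
      · rw [hv]
        exact Ideal.mem_span_pair.2 ⟨1, -u, by ring⟩
      · rw [hv]
        exact Ideal.subset_span (by simp)
  refine ⟨a - w * e, b - u * e, s + u * w, hP, hP', key _ _ hP hP', ?_⟩
  linear_combination (-1 : R) * hg + e * hs

variable {q : R → R → R}

theorem q_exp1 (hq : IsBD q) (hqm : ∀ a b, q a b ∈ maximalIdeal R) (hG : GE R x y z)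
    (u1 u2 u3 w : R) : q (u1 * x + u2 * y + u3 * z) w - (u1 * q x w + u2 * q y w + u3 * q z w) ∈
      maximalIdeal R ^ 2 := by
  have h1 : q (u1 * x + u2 * y + u3 * z) w - (u1 * q x w + u2 * q y w + u3 * q z w) =
      x * q u1 w + y * q u2 w + z * q u3 w := by
    rw [hq.add_left, hq.add_left, hq.mul_left, hq.mul_left, hq.mul_left]
    ring
  rw [h1, pow_two]
  exact Ideal.add_mem _ (Ideal.add_mem _ (Ideal.mul_mem_mul hG.mem.1 (hqm _ _))
    (Ideal.mul_mem_mul hG.mem.2.1 (hqm _ _))) (Ideal.mul_mem_mul hG.mem.2.2 (hqm _ _))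

theorem q_exp2 (hq : IsBD q) (hqm : ∀ a b, q a b ∈ maximalIdeal R) (hG : GE R x y z)
    (u1 u2 u3 w : R) : q w (u1 * x + u2 * y + u3 * z) - (u1 * q w x + u2 * q w y + u3 * q w z) ∈
      maximalIdeal R ^ 2 := by
  have h1 := q_exp1 hq hqm hG u1 u2 u3 w
  have h2 : q w (u1 * x + u2 * y + u3 * z) - (u1 * q w x + u2 * q w y + u3 * q w z) =
      -(q (u1 * x + u2 * y + u3 * z) w - (u1 * q x w + u2 * q y w + u3 * q z w)) := by
    rw [hq.skew w, hq.skew w x, hq.skew w y, hq.skew w z]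
    ring
  rw [h2]
  exact Submodule.neg_mem _ h1

/-- The bracket modulo the square of the maximal ideal. -/
theorem q_exp (hq : IsBD q) (hqm : ∀ a b, q a b ∈ maximalIdeal R) (hG : GE R x y z)
    (u1 u2 u3 v1 v2 v3 : R) :
    q (u1 * x + u2 * y + u3 * z) (v1 * x + v2 * y + v3 * z) -
      ((u2 * v3 - u3 * v2) * q y z + (u3 * v1 - u1 * v3) * q z x + (u1 * v2 - u2 * v1) * q x y) ∈
      maximalIdeal R ^ 2 := by
  have h1 := q_exp1 hq hqm hG u1 u2 u3 (v1 * x + v2 * y + v3 * z)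
  have h2 := Ideal.mul_mem_left _ u1 (q_exp2 hq hqm hG v1 v2 v3 x)
  have h3 := Ideal.mul_mem_left _ u2 (q_exp2 hq hqm hG v1 v2 v3 y)
  have h4 := Ideal.mul_mem_left _ u3 (q_exp2 hq hqm hG v1 v2 v3 z)
  have h5 := Ideal.add_mem _ (Ideal.add_mem _ (Ideal.add_mem _ h1 h2) h3) h4
  have h6 : q (u1 * x + u2 * y + u3 * z) (v1 * x + v2 * y + v3 * z) -
      ((u2 * v3 - u3 * v2) * q y z + (u3 * v1 - u1 * v3) * q z x + (u1 * v2 - u2 * v1) * q x y) =
      q (u1 * x + u2 * y + u3 * z) (v1 * x + v2 * y + v3 * z) -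
      (u1 * q x (v1 * x + v2 * y + v3 * z) + u2 * q y (v1 * x + v2 * y + v3 * z) +
        u3 * q z (v1 * x + v2 * y + v3 * z)) +
      u1 * (q x (v1 * x + v2 * y + v3 * z) - (v1 * q x x + v2 * q x y + v3 * q x z)) +
      u2 * (q y (v1 * x + v2 * y + v3 * z) - (v1 * q y x + v2 * q y y + v3 * q y z)) +
      u3 * (q z (v1 * x + v2 * y + v3 * z) - (v1 * q z x + v2 * q z y + v3 * q z z)) := by
    rw [hq.skew x z, hq.skew z y, hq.skew y x, hq.alt x, hq.alt y, hq.alt z]
    ring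
  rw [h6]
  exact h5

/-- The equations for an eigenvector of `q t` modulo the square of the maximal ideal. -/
theorem q_eig (hq : IsBD q) (hqm : ∀ a b, q a b ∈ maximalIdeal R) (hG : GE R x y z)
    {μ ν : R} (hA : q y z - 2 * x ∈ maximalIdeal R ^ 2) (hB : q z x - μ * y ∈ maximalIdeal R ^ 2)
    (hC : q x y - ν * z ∈ maximalIdeal R ^ 2) {t1 t2 t3 v1 v2 v3 t v c : R}
    (ht : t = t1 * x + t2 * y + t3 * z) (hv : v = v1 * x + v2 * y + v3 * z)
    (h : q t v - c * v ∈ maximalIdeal R ^ 2) :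
    2 * (residue R t2 * residue R v3 - residue R t3 * residue R v2) = residue R c * residue R v1 ∧
    residue R μ * (residue R t3 * residue R v1 - residue R t1 * residue R v3) =
      residue R c * residue R v2 ∧
    residue R ν * (residue R t1 * residue R v2 - residue R t2 * residue R v1) =
      residue R c * residue R v3 := by
  have h1 := q_exp hq hqm hG t1 t2 t3 v1 v2 v3
  rw [← ht, ← hv] at h1
  obtain ⟨k1, k2, k3⟩ := hG.res (a := 2 * (t2 * v3 - t3 * v2)) (b := μ * (t3 * v1 - t1 * v3))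
    (c := ν * (t1 * v2 - t2 * v1)) (a' := c * v1) (b' := c * v2) (c' := c * v3) (by
      have h2 := Ideal.add_mem _ (Ideal.add_mem _ (Ideal.mul_mem_left _ (t2 * v3 - t3 * v2) hA)
        (Ideal.mul_mem_left _ (t3 * v1 - t1 * v3) hB))
        (Ideal.mul_mem_left _ (t1 * v2 - t2 * v1) hC)
      have h3 := Ideal.sub_mem _ h (Ideal.add_mem _ h1 h2)
      have h4 : 2 * (t2 * v3 - t3 * v2) * x + μ * (t3 * v1 - t1 * v3) * y +
          ν * (t1 * v2 - t2 * v1) * z - (c * v1 * x + c * v2 * y + c * v3 * z) =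
          q t v - c * v - (q t v - ((t2 * v3 - t3 * v2) * q y z + (t3 * v1 - t1 * v3) * q z x +
            (t1 * v2 - t2 * v1) * q x y) + ((t2 * v3 - t3 * v2) * (q y z - 2 * x) +
            (t3 * v1 - t1 * v3) * (q z x - μ * y) + (t1 * v2 - t2 * v1) * (q x y - ν * z))) := by
        linear_combination c * hv
      rw [h4]
      exact h3)
  simp only [map_mul, map_sub, map_ofNat] at k1 k2 k3
  exact ⟨k1, k2, k3⟩

/-- Main result of this file. -/
theorem eig_main [IsDomain R] [Algebra ℂ R] (hq : IsBD q) (hqm : ∀ a b, q a b ∈ maximalIdeal R)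
    (hG : GE R x y z) {g h : R} (hA : q y z - 2 * x ∈ maximalIdeal R ^ 2)
    (hB : q z x - g ∈ maximalIdeal R ^ 2) (hC : q x y - h ∈ maximalIdeal R ^ 2)
    (typ : (g - 2 * y ∈ maximalIdeal R ^ 2 ∧
      (h - 2 * z ∈ maximalIdeal R ^ 2 ∨ h ∈ maximalIdeal R ^ 2)) ∨
    (g ∈ maximalIdeal R ^ 2 ∧ h ∈ maximalIdeal R ^ 2 ∧ x ^ 2 ∈ maximalIdeal R ^ 3 ∧
      ∀ a1 a2 a3 b1 b2 b3 : R,
        (a1 * x + a2 * y + a3 * z) * (b1 * x + b2 * y + b3 * z) ∈ maximalIdeal R ^ 3 →
        a2 * b2 ∈ maximalIdeal R ∧ a3 * b3 ∈ maximalIdeal R ∧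
        a2 * b3 + a3 * b2 ∈ maximalIdeal R))
    {e : R} (he0 : e ≠ 0) {P P' : Ideal R} (hCD : CD R e P P')
    (hP : ∀ a ∈ P, q e a ∈ P) (hP' : ∀ a ∈ P', q e a ∈ P') :
    ∃ a b c d, maximalIdeal R = Ideal.span {a, b, e} ∧ c ∉ maximalIdeal R ∧
      d ∉ maximalIdeal R ∧ q e a - c * a ∈ maximalIdeal R ^ 2 ∧
      q e b - d * b ∈ maximalIdeal R ^ 2 := by
  obtain ⟨a, b, s, hPa, hPb, hm, hab⟩ := hCD.exists_ab hG
  have hGa := ind3 hG hm
  have haP : a ∈ P := by rw [hPa]; exact Ideal.subset_span (by simp)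
  have hbP' : b ∈ P' := by rw [hPb]; exact Ideal.subset_span (by simp)
  have h1 := hP a haP
  have h2 := hP' b hbP'
  rw [hPa, Ideal.mem_span_pair] at h1
  rw [hPb, Ideal.mem_span_pair] at h2
  obtain ⟨c, h', hc⟩ := h1
  obtain ⟨d, h'', hd⟩ := h2
  have hem : e ∈ maximalIdeal R := hGa.mem.2.2
  -- the coefficients of `e`
  have hrel : a * h'' + b * h' = e * (q e s - (c + d) * s) := by
    have h3 : q e (a * b) = q e (s * e ^ 2) := by rw [hab]
    have hee : q e (e ^ 2) = 0 := by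
      rw [pow_two, br_mul_right hq, hq.alt]
      ring
    rw [br_mul_right hq, br_mul_right hq, hee, ← hc, ← hd] at h3
    apply mul_left_cancel₀ he0
    linear_combination h3 - (c + d) * hab
  have hh := hGa.emb h'' h' (-(q e s - (c + d) * s)) (by
    have h3 : h'' * a + h' * b + -(q e s - (c + d) * s) * e = 0 := by linear_combination hrel
    rw [h3]
    exact Submodule.zero_mem _)
  have ha2 : q e a - c * a ∈ maximalIdeal R ^ 2 := by
    have h3 : q e a - c * a = h' * e := by rw [← hc]; ring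
    rw [h3, pow_two]
    exact Ideal.mul_mem_mul hh.2.1 hem
  have hb2 : q e b - d * b ∈ maximalIdeal R ^ 2 := by
    have h3 : q e b - d * b = h'' * e := by rw [← hd]; ring
    rw [h3, pow_two]
    exact Ideal.mul_mem_mul hh.1 hem
  obtain ⟨a1, a2, a3, ha⟩ := coords hG.gen hGa.mem.1
  obtain ⟨b1, b2, b3, hb⟩ := coords hG.gen hGa.mem.2.1
  obtain ⟨t1, t2, t3, ht⟩ := coords hG.gen hem
  have hD := det_ne hG ha hb ht hm
  unfold D3 at hD
  have two : (2 : ResidueField R) ≠ 0 := by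
    have h3 : (2 : ResidueField R) = residue R (algebraMap ℂ R 2) := by
      rw [map_ofNat, map_ofNat]
    rw [h3, Ne, residue_eq_zero_iff, mem_maximalIdeal, mem_nonunits_iff, not_not]
    exact (IsUnit.mk0 (2 : ℂ) two_ne_zero).map (algebraMap ℂ R)
  suffices hcd : residue R c ≠ 0 ∧ residue R d ≠ 0 by
    refine ⟨a, b, c, d, hm, ?_, ?_, ha2, hb2⟩
    · rw [← residue_eq_zero_iff]; exact hcd.1
    · rw [← residue_eq_zero_iff]; exact hcd.2
  rcases typ with ⟨hg, hh2⟩ | ⟨hg, hh2, hx2, hquad⟩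
  · -- type A
    have hB' : q z x - 2 * y ∈ maximalIdeal R ^ 2 := by
      have h3 := Ideal.add_mem _ hB hg
      rwa [sub_add_sub_cancel] at h3
    obtain ⟨ν, hν, hC'⟩ : ∃ ν : R, (residue R ν = 2 ∨ residue R ν = 0) ∧
        q x y - ν * z ∈ maximalIdeal R ^ 2 := by
      rcases hh2 with h3 | h3
      · refine ⟨2, Or.inl (map_ofNat _ 2), ?_⟩
        have h4 := Ideal.add_mem _ hC h3
        rwa [sub_add_sub_cancel] at h4
      · refine ⟨0, Or.inr (map_zero _), ?_⟩
        have h4 := Ideal.add_mem _ hC h3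
        rwa [sub_add_cancel, ← sub_zero (q x y), ← zero_mul z] at h4
    obtain ⟨k1, k2, k3⟩ := q_eig hq hqm hG hA hB' hC' ht ha ha2
    obtain ⟨l1, l2, l3⟩ := q_eig hq hqm hG hA hB' hC' ht hb hb2
    have hμ : residue R (2 : R) ≠ 0 := by rw [map_ofNat]; exact two
    refine ⟨fld1 two hμ hν hD k1 k2 k3 l1 l2 l3, fld1 two hμ hν ?_ l1 l2 l3 k1 k2 k3⟩
    intro h3
    apply hD
    linear_combination (-1 : ResidueField R) * h3
  · -- types D, E
    exfalso
    have hB' : q z x - 0 * y ∈ maximalIdeal R ^ 2 := by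
      have h3 := Ideal.add_mem _ hB hg
      rwa [sub_add_cancel, ← sub_zero (q z x), ← zero_mul y] at h3
    have hC' : q x y - 0 * z ∈ maximalIdeal R ^ 2 := by
      have h4 := Ideal.add_mem _ hC hh2
      rwa [sub_add_cancel, ← sub_zero (q x y), ← zero_mul z] at h4
    obtain ⟨k1, k2, k3⟩ := q_eig hq hqm hG hA hB' hC' ht ha ha2
    obtain ⟨l1, l2, l3⟩ := q_eig hq hqm hG hA hB' hC' ht hb hb2
    rw [map_zero, zero_mul] at k2 k3 l2 l3
    obtain ⟨ht2, ht3⟩ := fld2 two hD k1 k2 k3 l1 l2 l3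
    have hw : t2 * y + t3 * z ∈ maximalIdeal R ^ 2 := by
      rw [pow_two]
      exact Ideal.add_mem _ (Ideal.mul_mem_mul ((residue_eq_zero_iff _).1 ht2) hG.mem.2.1)
        (Ideal.mul_mem_mul ((residue_eq_zero_iff _).1 ht3) hG.mem.2.2)
    have hxw : ∀ u ∈ maximalIdeal R, ∀ v ∈ maximalIdeal R ^ 2, u * v ∈ maximalIdeal R ^ 3 := by
      intro u hu v hv
      rw [pow_succ']
      exact Ideal.mul_mem_mul hu hv
    have he2 : e ^ 2 ∈ maximalIdeal R ^ 3 := by
      have h3 : e ^ 2 = t1 ^ 2 * x ^ 2 + (2 * t1 * (x * (t2 * y + t3 * z)) +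
          (t2 * y + t3 * z) * (t2 * y + t3 * z)) := by
        rw [ht]
        ring
      rw [h3]
      exact Ideal.add_mem _ (Ideal.mul_mem_left _ _ hx2) (Ideal.add_mem _
        (Ideal.mul_mem_left _ _ (hxw _ hG.mem.1 _ hw))
        (hxw _ (Ideal.pow_le_self two_ne_zero hw) _ hw))
    obtain ⟨m1, m2, m3⟩ := hquad a1 a2 a3 b1 b2 b3 (by
      rw [← ha, ← hb, hab]
      exact Ideal.mul_mem_left _ _ he2)
    rw [← residue_eq_zero_iff] at m1 m3
    simp only [map_add, map_mul] at m1 m3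
    exact fld3 hD ht2 ht3 m1 m3

end ring

end H33

end LCY
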