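import Pool.Agent.Helper33.LCY.PicMain
import Pool.Agent.Helper81.LCY.DVa
import Pool.Agent.Helper27.LCY.BR5
import Pool.Agent.Helper27.LCY.BR6

/-!
BR7, the case of a Du Val point on the boundary: row DV1.
-/

open IsLocalRing

namespace LCY

namespace H33

theorem maxIdeal_eq {N : ℕ} (Y : Var N) (J : Ideal (S N)) [hJ : J.IsPrime]
    [IsLocalRing (Y.locRing J)] : Y.maxIdeal J = maximalIdeal (Y.locRing J) := by
  apply le_antisymm
  · rw [Var.maxIdeal, Ideal.span_le]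
    intro a ha
    exact ha
  · intro a ha
    exact Ideal.subset_span ha

/-- The curves on `Y` through the point `p`. -/
abbrev Cur {N : ℕ} (Y : Var N) (p : Fin (N + 1) → ℂ) : Type :=
  {C : Var N // Y.IsCurveOn C ∧ C.IsPt p}

theorem st_DV1 : ST_DV1 := by
  intro N Y D ω B hyp v k hk p hp hc _ hd C hC hCp
  have hY := hyp.cy.surface
  have hN := hyp.cy.normal
  have hIJ := Y.le_ptIdeal p hp
  have hloc := Y.isLocalRing_locRing (ptIdeal p) hIJ
  obtain ⟨i, hi⟩ := exists_chart hp.1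
  have hnoeth := Y.noeth_locRing (ptIdeal p) hIJ hi
  have hfrac := Y.frac_locRing (ptIdeal p) hIJ hi
  choose w hw using fun c : Cur Y p => br3 N Y hY hN c.1 c.2.1
  have hres : ∀ a : Y.locRing (ptIdeal p), ∃ c : ℂ,
      a - algebraMap ℂ (Y.locRing (ptIdeal p)) c ∈ maximalIdeal (Y.locRing (ptIdeal p)) :=
    fun a => Y.const_mod p hp a
  have hint : ∀ (c : Cur Y p), ∀ z ∈ Y.locRing (ptIdeal p), (w c).Int z := fun c =>
    H81.loc_le_curve c.2.2 (hw c)
  have hpic : Pic B (Y.locRing (ptIdeal p)) (Cur Y p) w (fun c => c.1 ∈ D) :=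
    { surf := surf_of_BR1 br1 Y hY
      res := hres
      int := fun c a => hint c a a.2
      br5 := fun u hu => br5 N Y hY hN p hp u fun E hE hEp => (hw ⟨E, hE, hEp⟩ u).1 (hu _)
      loc := by
        intro c u hu
        obtain ⟨a, ha, s, hs, hs0, hvs, h⟩ := H81.curve_frac c.2.1 c.2.2 (hw c) hu
        exact ⟨⟨a, ha⟩, ⟨s, hs⟩, hs0, hvs, by rw [h, div_eq_mul_inv]⟩
      w0 := fun c hc => (br6 N Y hY hN ω B hyp.br c.1 c.2.1 (w c) (hw c)).1
        (hyp.off c.1 c.2.1 hc)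
      w1 := fun c hc => (br6 N Y hY hN ω B hyp.br c.1 c.2.1 (w c) (hw c)).2
        (hyp.on c.1 hc) }
  obtain ⟨f, hf, ⟨eqv⟩⟩ := hd
  rw [maxIdeal_eq] at eqv
  have hYC := hyp.cy.snc.curve C hC
  have hsm : ∀ c : Cur Y p, c.1 ∈ D → ∃ b0 ∈ maximalIdeal (Y.locRing (ptIdeal p)),
      maximalIdeal (Y.locRing (ptIdeal p)) ≤ hpic.P c ⊔ Ideal.span {b0} := by
    intro c hcD
    obtain ⟨u, hu⟩ := H81.exists_u c.2.1 c.2.2 (hyp.cy.snc.smooth c.1 hcD p c.2.2) (hw c)
    refine ⟨u, ?_, ?_⟩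
    · rw [hu]
      exact Ideal.mem_sup_left (Ideal.mem_span_singleton_self u)
    · rw [hu, sup_comm]
      exact le_rfl
  refine hpic.main hf eqv ⟨C, hYC, hCp⟩ hC hsm ?_ ?_ v (fun a => hc.1 a a.2)
    (fun a ha => hc.2 a ha) k hk
  · by_cases h1 : ∃ c1 : Cur Y p, c1.1 ∈ D ∧ c1.1 ≠ C
    · right
      obtain ⟨c1, hc1, hne⟩ := h1
      refine ⟨c1, hc1, ?_, ?_⟩
      · intro c hcD
        by_contra hcon
        push Not at hcon
        have e1 : C ≠ c.1 := fun h => hcon.1 (Subtype.ext h.symm)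
        have e2 : c1.1 ≠ c.1 := fun h => hcon.2 (Subtype.ext h.symm)
        exact hyp.cy.snc.noTriple C hC c1.1 hc1 c.1 hcD hne.symm e1 e2 p
          ⟨hCp, c1.2.2, c.2.2⟩
      · exact (H81.max_eq_sup hYC c1.2.1 hCp c1.2.2
          (hyp.cy.snc.transversal C hC c1.1 hc1 hne.symm p hCp c1.2.2)
          (hw ⟨C, hYC, hCp⟩) (hw c1)).le
    · left
      push Not at h1
      intro c hcD
      exact Subtype.ext (h1 c hcD)
  · intro u
    obtain ⟨r, s, hs, hrs⟩ := IsFractionRing.div_surjective (A := Y.locRing (ptIdeal p)) u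
    refine ⟨r, s, ?_, hrs.symm⟩
    intro h0
    exact nonZeroDivisors.ne_zero hs (Subtype.ext h0)

end H33

end LCY
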