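import Pool.Agent.Helper33.LCY.Curv
import Pool.Agent.Helper93.LCY.Val

/-!
The end of the proof: if the bracket with `e` raises the values, the residue field is the field
of constants.
-/

open IsLocalRing Polynomial

namespace LCY

namespace H33

section iter

variable {R : Type} [CommRing R] [IsLocalRing R] {q : R → R → R}

theorem q_sq (hq : IsBD q) (hqm : ∀ a b, q a b ∈ maximalIdeal R) (e : R) {u : R}
    (hu : u ∈ maximalIdeal R ^ 2) : q e u ∈ maximalIdeal R ^ 2 := by
  rw [pow_two] at hu ⊢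
  refine Submodule.mul_induction_on hu ?_ ?_
  · intro a ha b hb
    rw [br_mul_right hq]
    exact Ideal.add_mem _ (Ideal.mul_mem_mul ha (hqm _ _)) (Ideal.mul_mem_mul hb (hqm _ _))
  · intro a b ha hb
    rw [br_add_right hq]
    exact Ideal.add_mem _ ha hb

theorem iter_eig (hq : IsBD q) (hqm : ∀ a b, q a b ∈ maximalIdeal R) {e a c : R}
    (ha : a ∈ maximalIdeal R) (h : q e a - c * a ∈ maximalIdeal R ^ 2) (n : ℕ) :
    (q e)^[n] a - c ^ n * a ∈ maximalIdeal R ^ 2 := by
  induction n with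
  | zero =>
    rw [Function.iterate_zero, id, pow_zero, one_mul, sub_self]
    exact Submodule.zero_mem _
  | succ n ih =>
    rw [Function.iterate_succ_apply']
    have h1 := q_sq hq hqm e ih
    have h2 : q e ((q e)^[n] a) - c ^ (n + 1) * a =
        q e ((q e)^[n] a - c ^ n * a) + (c ^ n * (q e a - c * a) + a * q e (c ^ n)) := by
      have h3 : q e ((q e)^[n] a) = q e ((q e)^[n] a - c ^ n * a) + q e (c ^ n * a) := by
        rw [← br_add_right hq, sub_add_cancel]
      rw [h3, br_mul_right hq]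
      ring
    rw [h2]
    refine Ideal.add_mem _ h1 (Ideal.add_mem _ (Ideal.mul_mem_left _ _ h) ?_)
    rw [pow_two]
    exact Ideal.mul_mem_mul ha (hqm _ _)

theorem iter_gen [IsNoetherianRing R] (hq : IsBD q) (hqm : ∀ a b, q a b ∈ maximalIdeal R)
    {e a b c d : R} (hm : maximalIdeal R = Ideal.span {a, b, e}) (hc : c ∉ maximalIdeal R)
    (hd : d ∉ maximalIdeal R) (ha : q e a - c * a ∈ maximalIdeal R ^ 2)
    (hb : q e b - d * b ∈ maximalIdeal R ^ 2) (n : ℕ) :
    maximalIdeal R = Ideal.span {(q e)^[n] a, (q e)^[n] b, e} := by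
  have ham : a ∈ maximalIdeal R := by rw [hm]; exact Ideal.subset_span (by simp)
  have hbm : b ∈ maximalIdeal R := by rw [hm]; exact Ideal.subset_span (by simp)
  have hem : e ∈ maximalIdeal R := by rw [hm]; exact Ideal.subset_span (by simp)
  have h1 := iter_eig hq hqm ham ha n
  have h2 := iter_eig hq hqm hbm hb n
  apply le_antisymm
  · apply Submodule.le_of_le_smul_of_le_jacobson_bot (I := maximalIdeal R)
      ((isNoetherianRing_iff_ideal_fg R).1 inferInstance _)
      (IsLocalRing.maximalIdeal_le_jacobson _)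
    set T : Ideal R := Ideal.span {(q e)^[n] a, (q e)^[n] b, e} ⊔
      maximalIdeal R • maximalIdeal R with hT
    have t0 : maximalIdeal R ^ 2 ≤ T := by
      rw [pow_two]
      exact le_sup_right
    have t1 : (q e)^[n] a ∈ T := (le_sup_left : _ ≤ T) (Ideal.subset_span (by simp))
    have t2 : (q e)^[n] b ∈ T := (le_sup_left : _ ≤ T) (Ideal.subset_span (by simp))
    have t3 : e ∈ T := (le_sup_left : _ ≤ T) (Ideal.subset_span (by simp))
    have key : ∀ u w r : R, r ∉ maximalIdeal R → w ∈ T → w - r ^ n * u ∈ maximalIdeal R ^ 2 →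
        u ∈ T := by
      intro u w r hr hw h
      have h3 : r ^ n * u ∈ T := by
        have h4 := T.sub_mem hw (t0 h)
        rwa [sub_sub_cancel] at h4
      rw [mem_maximalIdeal, mem_nonunits_iff, not_not] at hr
      obtain ⟨s, hs⟩ := (hr.pow n).exists_left_inv
      have h5 := T.mul_mem_left s h3
      rwa [← mul_assoc, hs, one_mul] at h5
    rw [hm, Ideal.span_le]
    intro u hu
    rcases hu with hu | hu | hu
    · rw [hu]
      exact key a _ c hc t1 h1
    · rw [hu]
      exact key b _ d hd t2 h2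
    · rw [hu]
      exact t3
  · have key : ∀ u ∈ maximalIdeal R, (q e)^[n] u ∈ maximalIdeal R := by
      intro u hu
      cases n with
      | zero => exact hu
      | succ n =>
        rw [Function.iterate_succ_apply']
        exact hqm _ _
    rw [Ideal.span_le]
    intro u hu
    rcases hu with hu | hu | hu
    · rw [hu]; exact key a ham
    · rw [hu]; exact key b hbm
    · rw [hu]; exact hem

end iter

section val

variable {L : Type} [Field L] [Algebra ℂ L] {v : DVal L}

/-- the value is at least `n` -/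
def Ge (v : DVal L) (n : ℤ) (a : L) : Prop := a = 0 ∨ n ≤ v.v a

theorem ge_int {a : L} : Ge v 0 a ↔ v.Int a := Iff.rfl

theorem ge_pos {a : L} : Ge v 1 a ↔ v.Pos a := Iff.rfl

theorem Ge.mono {m n : ℤ} {a : L} (h : Ge v n a) (hmn : m ≤ n) : Ge v m a :=
  h.imp id fun h => hmn.trans h

theorem Ge.mul {m n : ℤ} {a b : L} (ha : Ge v m a) (hb : Ge v n b) : Ge v (m + n) (a * b) := by
  rcases ha with rfl | ha
  · left
    rw [zero_mul]
  rcases hb with rfl | hb
  · left
    rw [mul_zero]
  by_cases ha0 : a = 0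
  · left
    rw [ha0, zero_mul]
  by_cases hb0 : b = 0
  · left
    rw [hb0, mul_zero]
  right
  rw [v.map_mul _ _ ha0 hb0]
  exact add_le_add ha hb

theorem Ge.add {n : ℤ} {a b : L} (ha : Ge v n a) (hb : Ge v n b) : Ge v n (a + b) := by
  rcases ha with rfl | ha
  · rwa [zero_add]
  rcases hb with rfl | hb
  · rw [add_zero]
    exact Or.inr ha
  by_cases ha0 : a = 0
  · rw [ha0, zero_add]
    exact Or.inr hb
  by_cases hb0 : b = 0
  · rw [hb0, add_zero]
    exact Or.inr ha
  by_cases h0 : a + b = 0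
  · exact Or.inl h0
  right
  exact (le_min ha hb).trans (v.map_add _ _ ha0 hb0 h0)

theorem Ge.neg {n : ℤ} {a : L} (ha : Ge v n a) : Ge v n (-a) := by
  rcases ha with rfl | ha
  · left
    rw [neg_zero]
  by_cases ha0 : a = 0
  · left
    rw [ha0, neg_zero]
  right
  rwa [v.map_neg ha0]

theorem Ge.sub {n : ℤ} {a b : L} (ha : Ge v n a) (hb : Ge v n b) : Ge v n (a - b) := by
  rw [sub_eq_add_neg]
  exact ha.add hb.neg

theorem ge_const (c : ℂ) : Ge v 0 (algebraMap ℂ L c) := v.int_const c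

theorem Ge.pow {n : ℤ} {a : L} (ha : Ge v n a) (j : ℕ) : Ge v (j * n) (a ^ j) := by
  induction j with
  | zero =>
    rw [pow_zero, Nat.cast_zero, zero_mul]
    exact v.int_one
  | succ j ih =>
    rw [pow_succ]
    have h := ih.mul ha
    have h2 : ((j + 1 : ℕ) : ℤ) * n = j * n + n := by
      push_cast
      ring
    rw [h2]
    exact h

theorem not_ge {n : ℤ} {a : L} (ha : a ≠ 0) (h : v.v a < n) : ¬ Ge v n a := by
  rintro (h1 | h1)
  · exact ha h1
  · omega

/-- Every element is a polynomial in `e` up to an element of high value. -/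
theorem poly_approx (R : Subalgebra ℂ L) [IsLocalRing R]
    (hres : ∀ a : R, ∃ c : ℂ, a - algebraMap ℂ R c ∈ maximalIdeal R)
    (hint : ∀ a : R, v.Int (a : L)) {a b e : R} (hm : maximalIdeal R = Ideal.span {a, b, e})
    (N : ℕ) (ha : Ge v N (a : L)) (hb : Ge v N (b : L)) (he : Ge v 1 (e : L)) (r : R) :
    ∃ P : ℂ[X], Ge v N ((r : L) - aeval (e : L) P) := by
  have key : ∀ j : ℕ, ∃ (P : ℂ[X]) (w : R), Ge v N ((r : L) - aeval (e : L) P - (e : L) ^ j * w) := by
    intro j
    induction j with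
    | zero =>
      refine ⟨0, r, Or.inl ?_⟩
      simp
    | succ j ih =>
      obtain ⟨P, w, hw⟩ := ih
      obtain ⟨c, hc⟩ := hres w
      obtain ⟨u1, u2, u3, hu⟩ := coords hm hc
      refine ⟨P + C c * X ^ j, u3, ?_⟩
      have h1 : (w : L) - algebraMap ℂ L c = u1 * a + u2 * b + u3 * e :=
        congrArg (Subtype.val : R → L) hu
      have h2 : (r : L) - aeval (e : L) (P + C c * X ^ j) - (e : L) ^ (j + 1) * u3 =
          ((r : L) - aeval (e : L) P - (e : L) ^ j * w) +
          (e : L) ^ j * (u1 * a + u2 * b) := by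
        simp only [map_add, map_mul, map_pow, aeval_X, aeval_C]
        linear_combination ((e : L) ^ j) * h1
      rw [h2]
      refine hw.add ?_
      have h3 : Ge v N ((u1 : L) * a + u2 * b) := by
        have h4 := (ge_int.2 (hint u1)).mul ha
        have h5 := (ge_int.2 (hint u2)).mul hb
        rw [zero_add] at h4 h5
        exact h4.add h5
      have h6 := (ge_int.2 (v.int_pow (hint e) j)).mul h3
      rwa [zero_add] at h6
  obtain ⟨P, w, hw⟩ := key N
  refine ⟨P, ?_⟩
  have h1 : (r : L) - aeval (e : L) P = ((r : L) - aeval (e : L) P - (e : L) ^ N * w) +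
      (e : L) ^ N * w := by ring
  rw [h1]
  refine hw.add ?_
  have h2 := (he.pow N).mul (ge_int.2 (hint w))
  rwa [mul_one, add_zero] at h2

theorem lead (e : L) (he0 : e ≠ 0) (he : 0 < v.v e) {r : L} (hr0 : r ≠ 0)
    (hP : ∃ P : ℂ[X], Ge v (v.v r + 1) (r - aeval e P)) :
    ∃ (j : ℕ) (c : ℂ), c ≠ 0 ∧ (j : ℤ) * v.v e = v.v r ∧
      Ge v (v.v r + 1) (r - algebraMap ℂ L c * e ^ j) := by
  obtain ⟨P, hP⟩ := hP
  have hP0 : P ≠ 0 := by
    rintro rfl
    rw [map_zero, sub_zero] at hP
    exact not_ge hr0 (by omega) hP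
  obtain ⟨Q, hQ, hnd⟩ := exists_eq_pow_rootMultiplicity_mul_and_not_dvd P hP0 0
  rw [C_0, sub_zero] at hQ hnd
  set j := rootMultiplicity 0 P with hj
  have hc : Q.coeff 0 ≠ 0 := fun h => hnd (X_dvd_iff.2 h)
  have heint : v.Int e := Or.inr he.le
  have h1 : aeval e P = algebraMap ℂ L (Q.coeff 0) * e ^ j +
      e ^ j * (e * aeval e (divX Q)) := by
    rw [hQ, map_mul, map_pow, aeval_X]
    nth_rw 1 [← divX_mul_X_add Q]
    rw [map_add, map_mul, aeval_X, aeval_C]
    ring
  have hge : Ge v (j * v.v e + 1) (e ^ j * (e * aeval e (divX Q))) := by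
    have h2 := (ge_int.2 (v.int_aeval heint (divX Q)))
    have h3 : Ge v 1 e := Or.inr (by omega)
    have h4 := h3.mul h2
    rw [add_zero] at h4
    have h5 : Ge v (v.v e) e := Or.inr le_rfl
    exact (h5.pow j).mul h4
  have hcm : algebraMap ℂ L (Q.coeff 0) ≠ 0 := by
    rw [Ne, FaithfulSMul.algebraMap_eq_zero_iff]
    exact hc
  have hlead : v.v (algebraMap ℂ L (Q.coeff 0) * e ^ j) = j * v.v e := by
    rw [v.map_mul _ _ hcm (pow_ne_zero _ he0), v.map_const _ hc, v.map_pow he0, zero_add]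
  have hne : algebraMap ℂ L (Q.coeff 0) * e ^ j ≠ 0 := mul_ne_zero hcm (pow_ne_zero _ he0)
  have hjr : (j : ℤ) * v.v e = v.v r := by
    rcases lt_trichotomy ((j : ℤ) * v.v e) (v.v r) with h2 | h2 | h2
    · exfalso
      refine not_ge (v := v) hne (n := (j : ℤ) * v.v e + 1) (by omega) ?_
      have h3 : algebraMap ℂ L (Q.coeff 0) * e ^ j = r - (r - aeval e P) -
          e ^ j * (e * aeval e (divX Q)) := by
        rw [h1]
        ring
      rw [h3]
      refine Ge.sub (Ge.sub (Or.inr (by omega)) (hP.mono (by omega))) hge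
    · exact h2
    · exfalso
      refine not_ge (v := v) hr0 (n := v.v r + 1) (by omega) ?_
      have h3 : r = (r - aeval e P) + algebraMap ℂ L (Q.coeff 0) * e ^ j +
          e ^ j * (e * aeval e (divX Q)) := by
        rw [h1]
        ring
      rw [h3]
      have h4 : Ge v (v.v r + 1) ((r - aeval e P) + algebraMap ℂ L (Q.coeff 0) * e ^ j +
          e ^ j * (e * aeval e (divX Q))) :=
        (hP.add (Or.inr (by omega))).add (hge.mono (by omega))
      rw [← h3] at h4 ⊢
      exact h4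
  refine ⟨j, Q.coeff 0, hc, hjr, ?_⟩
  have h3 : r - algebraMap ℂ L (Q.coeff 0) * e ^ j = (r - aeval e P) +
      e ^ j * (e * aeval e (divX Q)) := by
    rw [h1]
    ring
  rw [h3]
  exact hP.add (hge.mono (by omega))

theorem fin_contra (R : Subalgebra ℂ L) (hint : ∀ a : R, v.Int (a : L))
    (hfrac : ∀ u : L, ∃ r s : R, (s : L) ≠ 0 ∧ u = (r : L) / s) (e : L) (he0 : e ≠ 0)
    (he : 0 < v.v e)
    (hP : ∀ (N : ℕ) (r : R), ∃ P : ℂ[X], Ge v N ((r : L) - aeval e P)) : False := by
  obtain ⟨t, ht⟩ := v.exists_res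
  obtain ⟨r, s, hs0, hrs⟩ := hfrac t
  obtain ⟨ht0, htv⟩ := ht X X_ne_zero
  rw [aeval_X] at ht0 htv
  have hr0 : (r : L) ≠ 0 := by
    intro h
    apply ht0
    rw [hrs, h, zero_div]
  have hvr : v.v (r : L) = v.v (s : L) := by
    have h1 : v.v t = v.v (r : L) - v.v (s : L) := by rw [hrs, v.map_div hr0 hs0]
    omega
  have hP' : ∀ r : R, (r : L) ≠ 0 → ∃ P : ℂ[X], Ge v (v.v (r : L) + 1) ((r : L) - aeval e P) := by
    intro r hr
    have h1 : 0 ≤ v.v (r : L) := (hint r).resolve_left hr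
    obtain ⟨P, hP⟩ := hP ((v.v (r : L)).toNat + 1) r
    refine ⟨P, hP.mono ?_⟩
    push_cast
    rw [Int.toNat_of_nonneg h1]
  obtain ⟨j, c, hc, hj, hg⟩ := lead e he0 he hr0 (hP' r hr0)
  obtain ⟨j', c', hc', hj', hg'⟩ := lead e he0 he hs0 (hP' s hs0)
  have hjj : j = j' := by
    have h1 : (j : ℤ) * v.v e = (j' : ℤ) * v.v e := by rw [hj, hj', hvr]
    exact_mod_cast mul_right_cancel₀ he.ne' h1
  subst hjj
  have hcm : algebraMap ℂ L c' ≠ 0 := by
    rw [Ne, FaithfulSMul.algebraMap_eq_zero_iff]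
    exact hc'
  have h1 : t - algebraMap ℂ L (c / c') = (((r : L) - algebraMap ℂ L c * e ^ j) -
      algebraMap ℂ L (c / c') * ((s : L) - algebraMap ℂ L c' * e ^ j)) * (s : L)⁻¹ := by
    rw [hrs, map_div₀]
    field_simp
    ring
  have h2 : Ge v 1 (t - algebraMap ℂ L (c / c')) := by
    rw [h1]
    have h3 := (ge_const (v := v) (c / c')).mul hg'
    rw [zero_add, ← hvr] at h3
    have h4 : Ge v (- v.v (r : L)) (s : L)⁻¹ := Or.inr (by rw [v.map_inv hs0, hvr])
    have h5 := (hg.sub h3).mul h4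
    exact h5.mono (by omega)
  obtain ⟨h3, h4⟩ := ht (X - C (c / c')) (X_sub_C_ne_zero _)
  rw [map_sub, aeval_X, aeval_C] at h3 h4
  exact not_ge h3 (by omega) h2

end val

end H33

end LCY
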