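import Pool.Agent.Helper33.LCY.Fin
import Pool.Agent.Helper93.LCY.BR89
import Pool.Agent.Helper93.LCY.Compl

/-!
The local picture at a Du Val point on the boundary.
-/

open IsLocalRing

namespace LCY

namespace H33

theorem artin_rees {R : Type} [CommRing R] [IsDomain R] [IsLocalRing R] [IsNoetherianRing R]
    (d : R) (hd : d ≠ 0) :
    ∃ K, ∀ u, d * u ∈ maximalIdeal R ^ K → u ∈ maximalIdeal R ^ 2 := by
  obtain ⟨k, hk⟩ := Ideal.exists_pow_inf_eq_pow_smul (maximalIdeal R) (Ideal.span {d})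
  refine ⟨k + 2, fun u hu => ?_⟩
  have h1 : d * u ∈ (maximalIdeal R) ^ (k + 2) • (⊤ : Ideal R) ⊓ Ideal.span {d} := by
    refine ⟨?_, Ideal.mul_mem_right _ _ (Ideal.mem_span_singleton_self d)⟩
    rw [smul_eq_mul, Ideal.mul_top]
    exact hu
  rw [hk (k + 2) (by omega)] at h1
  have h2 : d * u ∈ (maximalIdeal R) ^ 2 * Ideal.span {d} := by
    have h3 : k + 2 - k = 2 := by omega
    rw [h3] at h1
    exact Ideal.mul_mono_right inf_le_right h1
  rw [mul_comm (maximalIdeal R ^ 2), Ideal.mem_span_singleton_mul] at h2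
  obtain ⟨c, hc, hcd⟩ := h2
  rw [← mul_left_cancel₀ hd hcd]
  exact hc

section

variable {L : Type} [Field L] [Algebra ℂ L]

/-- A lower bound for all brackets of elements of `R` is a lower bound for the bracket of a
pair of coordinates at `w`. -/
theorem attained (B : Bracket L) (R : Subalgebra ℂ L) (w : DVal L)
    (hloc : ∀ u, w.Int u → ∃ r s : R, (s : L) ≠ 0 ∧ w.v (s : L) = 0 ∧ u = (r : L) / s)
    {k : ℤ} (hk : B.Wt w k) (n : ℤ) (h : ∀ r s : R, Ge w n (B.br r s)) : n ≤ -k := by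
  obtain ⟨t, π, ht, hπ0, hπ, hne, hv⟩ := hk
  have htint : w.Int t := by
    obtain ⟨h1, h2⟩ := ht Polynomial.X Polynomial.X_ne_zero
    rw [Polynomial.aeval_X] at h1 h2
    exact Or.inr h2.ge
  have hπint : w.Int π := Or.inr (by omega)
  obtain ⟨r, s, hs0, hs, hrs⟩ := hloc t htint
  obtain ⟨r', s', hs0', hs', hrs'⟩ := hloc π hπint
  have key1 : ∀ c : R, Ge w n (B.br (c : L) π) := by
    intro c
    have h1 : (r' : L) = s' * π := by rw [hrs']; field_simp
    have h2 : B.br (c : L) π = (s' : L)⁻¹ * (B.br c r' - π * B.br c s') := by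
      rw [h1, B.mul_right]
      field_simp
      ring
    have h3 : Ge w 0 (s' : L)⁻¹ := Or.inr (by rw [w.map_inv hs0', hs', neg_zero])
    have h4 := (ge_int.2 hπint).mul (h c s')
    rw [zero_add] at h4
    have h5 := h3.mul ((h c r').sub h4)
    rw [zero_add, ← h2] at h5
    exact h5
  have h1 : (r : L) = s * t := by rw [hrs]; field_simp
  have h2 : B.br t π = (s : L)⁻¹ * (B.br r π - t * B.br s π) := by
    rw [h1, B.mul_left]
    field_simp
    ring
  have h3 : Ge w 0 (s : L)⁻¹ := Or.inr (by rw [w.map_inv hs0, hs, neg_zero])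
  have h4 := (ge_int.2 htint).mul (key1 s)
  rw [zero_add] at h4
  have h5 := h3.mul ((key1 r).sub h4)
  rw [zero_add, ← h2] at h5
  have h6 := h5.resolve_left hne
  rwa [hv] at h6

/-- The local picture at a point of a normal surface: the valuations `w i` of the curves through
the point, `D` the set of boundary curves. -/
structure Pic (B : Bracket L) (R : Subalgebra ℂ L) [IsLocalRing R] (J : Type) (w : J → DVal L)
    (D : J → Prop) : Prop where
  surf : Surf L
  res : ∀ a : R, ∃ c : ℂ, a - algebraMap ℂ R c ∈ maximalIdeal R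
  int : ∀ i (a : R), (w i).Int (a : L)
  br5 : ∀ u : L, (∀ i, (w i).Int u) → u ∈ R
  loc : ∀ i u, (w i).Int u → ∃ r s : R, (s : L) ≠ 0 ∧ (w i).v (s : L) = 0 ∧ u = (r : L) / s
  w0 : ∀ i, ¬ D i → B.Wt (w i) 0
  w1 : ∀ i, D i → B.Wt (w i) (-1)

variable {B : Bracket L} {R : Subalgebra ℂ L} [IsLocalRing R] {J : Type} {w : J → DVal L}
  {D : J → Prop}

theorem Pic.nm (h : Pic B R J w D) (i : J) :
    ∃ a ∈ maximalIdeal R, (a : L) ≠ 0 ∧ (w i).v (a : L) = 0 := by
  by_contra hc
  push Not at hc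
  have hpos : ∀ a ∈ maximalIdeal R, (w i).Pos (a : L) := by
    intro a ha
    by_contra hp
    obtain ⟨h1, h2⟩ := (w i).unit_of93 (h.int i a) hp
    exact hc a ha h1 h2
  obtain ⟨t, ht⟩ := (w i).exists_res
  obtain ⟨ht0, htv⟩ := ht Polynomial.X Polynomial.X_ne_zero
  rw [Polynomial.aeval_X] at ht0 htv
  obtain ⟨r, s, hs0, hs, hrs⟩ := h.loc i t (Or.inr htv.ge)
  obtain ⟨cr, hcr⟩ := h.res r
  obtain ⟨cs, hcs⟩ := h.res s
  have hcs0 : algebraMap ℂ L cs ≠ 0 := by
    intro h0
    have h1 := hpos _ hcs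
    have h2 : ((s - algebraMap ℂ R cs : R) : L) = s := by
      change (s : L) - algebraMap ℂ L cs = s
      rw [h0, sub_zero]
    rw [h2] at h1
    exact (w i).not_pos_of_unit93 hs0 hs h1
  have h1 : t - algebraMap ℂ L (cr / cs) = (((r - algebraMap ℂ R cr : R) : L) -
      algebraMap ℂ L (cr / cs) * ((s - algebraMap ℂ R cs : R) : L)) * (s : L)⁻¹ := by
    change t - algebraMap ℂ L (cr / cs) = (((r : L) - algebraMap ℂ L cr) -
      algebraMap ℂ L (cr / cs) * ((s : L) - algebraMap ℂ L cs)) * (s : L)⁻¹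
    rw [hrs, map_div₀]
    field_simp
    ring
  have h2 : (w i).Pos (t - algebraMap ℂ L (cr / cs)) := by
    rw [h1]
    apply (w i).pos_mul_left93 _ ((w i).int_inv_of_unit93 hs0 hs)
    exact (w i).pos_sub93 (hpos _ hcr) ((w i).pos_mul_right93 ((w i).int_const _) (hpos _ hcs))
  obtain ⟨h3, h4⟩ := ht (Polynomial.X - Polynomial.C (cr / cs)) (Polynomial.X_sub_C_ne_zero _)
  rw [map_sub, Polynomial.aeval_X, Polynomial.aeval_C] at h3 h4
  exact (w i).not_pos_of_unit93 h3 h4 h2

theorem Pic.prim (h : Pic B R J w D) (i : J) {T : Ideal R} {M : ℕ} (hT : maximalIdeal R ^ M ≤ T) :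
    ∃ a ∈ T, (a : L) ≠ 0 ∧ (w i).v (a : L) = 0 := by
  obtain ⟨a, ha, ha0, hv⟩ := h.nm i
  refine ⟨a ^ M, hT (Ideal.pow_mem_pow ha M), pow_ne_zero M ha0, ?_⟩
  change (w i).v ((a : L) ^ M) = 0
  rw [(w i).map_pow ha0, hv, mul_zero]

/-- The bracket on the local ring. -/
theorem Pic.br_mem (h : Pic B R J w D) (a b : R) : B.br a b ∈ R := by
  apply h.br5
  intro i
  by_cases h0 : B.br (a : L) b = 0
  · exact Or.inl h0
  right
  by_cases hD : D i
  · have := br_ge_of_Wt h.surf B (w i) (h.w1 i hD) (h.int i a) (h.int i b) h0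
    omega
  · have := br_ge_of_Wt h.surf B (w i) (h.w0 i hD) (h.int i a) (h.int i b) h0
    omega

/-- The bracket on the local ring. -/
def Pic.br (h : Pic B R J w D) (a b : R) : R := ⟨B.br a b, h.br_mem a b⟩

theorem Pic.isBD (h : Pic B R J w D) : IsBD h.br where
  add_left := fun a b c => Subtype.ext (B.add_left a b c)
  mul_left := fun a b c => Subtype.ext (B.mul_left a b c)
  alt := fun a => Subtype.ext (B.alt a)
  skew := fun a b => Subtype.ext (B.skew a b)

theorem Pic.const (h : Pic B R J w D) (c : ℂ) (b : R) : h.br (algebraMap ℂ R c) b = 0 :=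
  Subtype.ext (B.const_left c b)

theorem Pic.brI_ne (h : Pic B R J w D) (i : J) : brI h.br ≠ ⊥ := by
  intro h0
  have h1 : ∀ r s : R, B.br (r : L) s = 0 := by
    intro r s
    have h2 : h.br r s ∈ brI h.br := H33.br_mem r s
    rw [h0, Ideal.mem_bot] at h2
    exact congrArg (Subtype.val : R → L) h2
  by_cases hD : D i
  · have := attained B R (w i) (h.loc i) (h.w1 i hD) 2 (fun r s => Or.inl (h1 r s))
    omega
  · have := attained B R (w i) (h.loc i) (h.w0 i hD) 2 (fun r s => Or.inl (h1 r s))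
    omega

theorem Pic.div (h : Pic B R J w D) (i0 : J) (M : ℕ) (x g a b : R)
    (hM : maximalIdeal R ^ M ≤ Ideal.span {x, g}) (hab : g * a = x * b) :
    ∃ e, a = x * e ∧ b = g * e := by
  have habL : (g : L) * a = x * b := congrArg (Subtype.val : R → L) hab
  have hxg : ∀ i, ((x : L) ≠ 0 ∧ (w i).v (x : L) = 0) ∨ ((g : L) ≠ 0 ∧ (w i).v (g : L) = 0) := by
    intro i
    obtain ⟨c, hc, hc0, hcv⟩ := h.prim i hM
    by_contra hcon
    push Not at hcon
    have hx : (w i).Pos (x : L) := by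
      rcases (w i).pos_or93 (h.int i x) with h1 | ⟨h1, h2⟩
      · exact h1
      · exact absurd h2 (hcon.1 h1)
    have hg : (w i).Pos (g : L) := by
      rcases (w i).pos_or93 (h.int i g) with h1 | ⟨h1, h2⟩
      · exact h1
      · exact absurd h2 (hcon.2 h1)
    obtain ⟨p, q, hpq⟩ := Ideal.mem_span_pair.1 hc
    have h1 : (c : L) = p * x + q * g := congrArg (Subtype.val : R → L) hpq.symm
    apply (w i).not_pos_of_unit93 hc0 hcv
    rw [h1]
    exact (w i).pos_add ((w i).pos_mul_right93 (h.int i p) hx)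
      ((w i).pos_mul_right93 (h.int i q) hg)
  obtain ⟨u, hu1, hu2⟩ : ∃ u : L, (a : L) = x * u ∧ (b : L) = g * u := by
    rcases hxg i0 with ⟨h1, _⟩ | ⟨h1, _⟩
    · refine ⟨a / x, by field_simp, ?_⟩
      field_simp
      linear_combination (-1 : L) * habL
    · refine ⟨b / g, ?_, by field_simp⟩
      field_simp
      linear_combination habL
  have huR : u ∈ R := by
    apply h.br5
    intro i
    rcases hxg i with ⟨h1, h2⟩ | ⟨h1, h2⟩
    · have h3 : u = a * (x : L)⁻¹ := by rw [hu1]; field_simp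
      rw [h3]
      exact (w i).int_mul (h.int i a) ((w i).int_inv_of_unit93 h1 h2)
    · have h3 : u = b * (g : L)⁻¹ := by rw [hu2]; field_simp
      rw [h3]
      exact (w i).int_mul (h.int i b) ((w i).int_inv_of_unit93 h1 h2)
  exact ⟨⟨u, huR⟩, Subtype.ext hu1, Subtype.ext hu2⟩

/-- The prime ideal of a curve. -/
def Pic.P (h : Pic B R J w D) (i : J) : Ideal R where
  carrier := {a | (w i).Pos (a : L)}
  zero_mem' := Or.inl rfl
  add_mem' := fun ha hb => (w i).pos_add ha hb
  smul_mem' := fun c a ha => (w i).pos_mul_right93 (h.int i c) ha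

theorem Pic.mem_P (h : Pic B R J w D) (i : J) (a : R) : a ∈ h.P i ↔ (w i).Pos (a : L) := Iff.rfl

theorem Pic.P_le (h : Pic B R J w D) (i : J) : h.P i ≤ maximalIdeal R := by
  intro a ha
  rw [mem_maximalIdeal, mem_nonunits_iff]
  intro hu
  obtain ⟨b, hb⟩ := hu.exists_right_inv
  have h1 : (1 : R) ∈ h.P i := by
    rw [← hb]
    exact Ideal.mul_mem_right _ _ ha
  exact (w i).not_pos_one h1

end

end H33

end LCY
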