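import Pool.Agent.Helper33.LCY.Pic

/-!
Log canonicity at a Du Val point on the boundary, in the local picture.
-/

open IsLocalRing

namespace LCY

namespace H33

variable {L : Type} [Field L] [Algebra ℂ L] {B : Bracket L} {R : Subalgebra ℂ L} [IsLocalRing R]
  {J : Type} {w : J → DVal L} {D : J → Prop}

/-- The bracket divided by the equation `e` of the boundary. -/
theorem Pic.exists_q [IsNoetherianRing R] (h : Pic B R J w D) {f : PS} (hf : IsADE f)
    (eqv : AdicCompletion (maximalIdeal R) R ≃+* PS ⧸ Ideal.span {f}) (i0 : J) :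
    ∃ (M N : ℕ) (x y z g k e : R) (q : R → R → R), NF R M N x y z g k ∧ e ≠ 0 ∧
      (∀ a b, h.br a b = e * q a b) ∧ (∀ a b, q a b ∈ maximalIdeal R) ∧
      q y z - 2 * x ∈ maximalIdeal R ^ 2 ∧ q z x - g ∈ maximalIdeal R ^ 2 ∧
      q x y - k ∈ maximalIdeal R ^ 2 ∧
      maximalIdeal R ^ M ≤ Ideal.span {q y z, q z x, q x y} := by
  have hloc : IsLocalRing (PS ⧸ Ideal.span {f}) := eqv.isLocalRing
  obtain ⟨ι, hι⟩ := st_compl R (PS ⧸ Ideal.span {f}) ⟨eqv⟩
  obtain ⟨M, hM⟩ := exists_NF (R := R) hf hι
  obtain ⟨a, ham, ha0, -⟩ := h.nm i0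
  have ha0' : a ≠ 0 := fun h0 => ha0 (by rw [h0]; rfl)
  obtain ⟨K, hK⟩ := artin_rees (a ^ M) (pow_ne_zero M ha0')
  obtain ⟨x, y, z, g, k, hNF⟩ := hM (M + (M + 1 + K + 2))
  obtain ⟨e, he0, hq, A, B', C, hA, hB, hC, hA2, hB2, hC2, hprim⟩ :=
    brk_main h.isBD h.const h.res (h.brI_ne i0) M (h.div i0 M) (a ^ M) (Ideal.pow_mem_pow ham M)
      (pow_ne_zero M ha0') K hK hNF.gen hNF.hg hNF.hh hNF.prim (M + 1 + K + 2) (by omega)
      (by omega) (by omega) (hNF.rel _ h.isBD)
  choose q hqm hq using hq
  have hA' : q y z = A := mul_left_cancel₀ he0 (by rw [← hq, hA])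
  have hB' : q z x = B' := mul_left_cancel₀ he0 (by rw [← hq, hB])
  have hC' : q x y = C := mul_left_cancel₀ he0 (by rw [← hq, hC])
  refine ⟨M, _, x, y, z, g, k, e, q, hNF, he0, hq, hqm, ?_, ?_, ?_, ?_⟩
  · rw [hA']; exact hA2
  · rw [hB']; exact hB2
  · rw [hC']; exact hC2
  · rw [hA', hB', hC']; exact hprim

theorem q_isBD {R : Type} [CommRing R] [IsDomain R] {br q : R → R → R} {e : R} (he : e ≠ 0)
    (hbr : IsBD br) (hq : ∀ a b, br a b = e * q a b) : IsBD q where
  add_left := by
    intro a b c
    apply mul_left_cancel₀ he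
    rw [← hq, hbr.add_left, hq, hq]
    ring
  mul_left := by
    intro a b c
    apply mul_left_cancel₀ he
    rw [← hq, hbr.mul_left, hq, hq]
    ring
  alt := by
    intro a
    apply mul_left_cancel₀ he
    rw [← hq, hbr.alt, mul_zero]
  skew := by
    intro a b
    apply mul_left_cancel₀ he
    rw [← hq, hbr.skew, hq]
    ring

/-- The value of `e` at the curve `w i` is the multiplicity of the curve in the boundary. -/
theorem Pic.v_e (h : Pic B R J w D) {M : ℕ} {x y z e : R} {q : R → R → R} (he : e ≠ 0)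
    (hq : ∀ a b, h.br a b = e * q a b)
    (hprim : maximalIdeal R ^ M ≤ Ideal.span {q y z, q z x, q x y}) (i : J) {k : ℤ}
    (hk : B.Wt (w i) k) : (w i).v (e : L) = -k := by
  have heL : (e : L) ≠ 0 := fun h0 => he (Subtype.ext h0)
  have hqL : ∀ a b : R, B.br (a : L) b = e * q a b := fun a b =>
    congrArg (Subtype.val : R → L) (hq a b)
  apply le_antisymm
  · apply attained B R (w i) (h.loc i) hk
    intro r s
    rw [hqL]
    have h1 : Ge (w i) ((w i).v (e : L)) (e : L) := Or.inr le_rfl
    have h2 := h1.mul (ge_int.2 (h.int i (q r s)))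
    rwa [add_zero] at h2
  · have key : ∀ a b : R, ((q a b : R) : L) ≠ 0 → (w i).v ((q a b : R) : L) = 0 →
        -k ≤ (w i).v (e : L) := by
      intro a b h1 h2
      have h3 : B.br (a : L) b ≠ 0 := by
        rw [hqL]
        exact mul_ne_zero heL h1
      have h4 := br_ge_of_Wt h.surf B (w i) hk (h.int i a) (h.int i b) h3
      rw [hqL, (w i).map_mul _ _ heL h1, h2, add_zero] at h4
      exact h4
    by_contra hcon
    have hpos : ∀ a b : R, (w i).Pos ((q a b : R) : L) := by
      intro a b
      rcases (w i).pos_or93 (h.int i (q a b)) with h1 | ⟨h1, h2⟩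
      · exact h1
      · exact absurd (key a b h1 h2) hcon
    obtain ⟨c, hc, hc0, hcv⟩ := h.prim i hprim
    apply (w i).not_pos_of_unit93 hc0 hcv
    have h5 : Ideal.span {q y z, q z x, q x y} ≤ h.P i := by
      rw [Ideal.span_le]
      intro u hu
      rcases hu with hu | hu | hu
      · rw [hu]; exact hpos _ _
      · rw [hu]; exact hpos _ _
      · rw [hu]; exact hpos _ _
    exact h5 hc

theorem Pic.main [IsNoetherianRing R] (h : Pic B R J w D) {f : PS} (hf : IsADE f)
    (eqv : AdicCompletion (maximalIdeal R) R ≃+* PS ⧸ Ideal.span {f}) (i0 : J) (hi0 : D i0)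
    (hsm : ∀ i, D i → ∃ b0 ∈ maximalIdeal R, maximalIdeal R ≤ h.P i ⊔ Ideal.span {b0})
    (hcase : (∀ i, D i → i = i0) ∨ ∃ i1, D i1 ∧ (∀ i, D i → i = i0 ∨ i = i1) ∧
      maximalIdeal R ≤ h.P i0 ⊔ h.P i1)
    (hfrac : ∀ u : L, ∃ r s : R, (s : L) ≠ 0 ∧ u = (r : L) / s)
    (v : DVal L) (hvint : ∀ a : R, v.Int (a : L)) (hvpos : ∀ a ∈ maximalIdeal R, v.Pos (a : L))
    (k : ℤ) (hk : B.Wt v k) : -1 ≤ k := by
  obtain ⟨M, N, x, y, z, g, g', e, q, hNF, he0, hq, hqm, hA, hB, hC, hprim⟩ :=
    h.exists_q hf eqv i0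
  have heL : (e : L) ≠ 0 := fun h0 => he0 (Subtype.ext h0)
  have hqL : ∀ a b : R, B.br (a : L) b = e * q a b := fun a b =>
    congrArg (Subtype.val : R → L) (hq a b)
  have hBD := q_isBD he0 h.isBD hq
  have hG : GE R x y z := ⟨hNF.gen, hNF.emb⟩
  have hv1 : ∀ i, D i → (w i).v (e : L) = 1 := fun i hi => by
    rw [h.v_e he0 hq hprim i (h.w1 i hi), neg_neg]
  have hv0 : ∀ i, ¬ D i → (w i).v (e : L) = 0 := fun i hi => by
    rw [h.v_e he0 hq hprim i (h.w0 i hi), neg_zero]
  -- elements that vanish on the boundary are multiples of `e`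
  have hmult : ∀ a : R, (∀ i, D i → (w i).Pos (a : L)) → a ∈ Ideal.span {e} := by
    intro a ha
    by_cases ha0 : (a : L) = 0
    · have : a = 0 := Subtype.ext ha0
      rw [this]
      exact Submodule.zero_mem _
    have h1 : (a : L) / e ∈ R := by
      apply h.br5
      intro i
      right
      rw [(w i).map_div ha0 heL]
      by_cases hi : D i
      · have h2 := (ha i hi).resolve_left ha0
        rw [hv1 i hi]
        omega
      · have h2 := (h.int i a).resolve_left ha0
        rw [hv0 i hi]
        omega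
    rw [Ideal.mem_span_singleton']
    refine ⟨⟨(a : L) / e, h1⟩, Subtype.ext ?_⟩
    change (a : L) / e * e = a
    field_simp
  have heP : ∀ i, D i → e ∈ h.P i := fun i hi => Or.inr (by rw [hv1 i hi]; norm_num)
  have hem : e ∈ maximalIdeal R := h.P_le i0 (heP i0 hi0)
  -- derivation preserves the primes of the boundary
  have hδP : ∀ i, D i → ∀ a ∈ h.P i, q e a ∈ h.P i := by
    intro i hi a ha
    by_cases h0 : ((q e a : R) : L) = 0
    · exact Or.inl h0
    have ha0 : (a : L) ≠ 0 := by
      intro h1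
      have h2 : a = 0 := Subtype.ext h1
      apply h0
      have h3 : q e a = 0 := by
        rw [h2, hBD.skew, br_zero_left hBD, neg_zero]
      rw [h3]
      rfl
    have h1 := br_ge'_of_Wt h.surf B (w i) (h.w1 i hi) heL ha0 (by
      rw [hqL]
      exact mul_ne_zero heL h0)
    rw [hqL, (w i).map_mul _ _ heL h0, hv1 i hi] at h1
    have h2 := ha.resolve_left ha0
    right
    omega
  rcases hcase with hone | ⟨i1, hi1, htwo, htr⟩
  · -- one branch: the embedding dimension would be at most two
    exfalso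
    obtain ⟨b0, hb0, hb⟩ := hsm i0 hi0
    have hP : h.P i0 = Ideal.span {e} := by
      apply le_antisymm
      · intro a ha
        apply hmult
        intro i hi
        rw [hone i hi]
        exact ha
      · rw [Ideal.span_singleton_le_iff_mem]
        exact heP i0 hi0
    have hm : maximalIdeal R = Ideal.span {e, b0, 0} := by
      apply le_antisymm
      · refine hb.trans ?_
        rw [hP]
        refine sup_le ?_ ?_
        · rw [Ideal.span_singleton_le_iff_mem]
          exact Ideal.subset_span (by simp)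
        · rw [Ideal.span_singleton_le_iff_mem]
          exact Ideal.subset_span (by simp)
      · rw [Ideal.span_le]
        intro u hu
        rcases hu with hu | hu | hu
        · rw [hu]; exact hem
        · rw [hu]; exact hb0
        · rw [hu]; exact Submodule.zero_mem _
    have h1 := (ind3 hG hm).emb 0 0 1 (by
      have h2 : (0 : R) * e + 0 * b0 + 1 * 0 = 0 := by ring
      rw [h2]
      exact Submodule.zero_mem _)
    exact (Ideal.ne_top_iff_one _).1 (maximalIdeal.isMaximal R).ne_top h1.2.2
  · have hCD : CD R e (h.P i0) (h.P i1) := by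
      refine ⟨?_, ?_, hsm i0 hi0, hsm i1 hi1⟩
      · apply le_antisymm
        · intro a ha
          apply hmult
          intro i hi
          rcases htwo i hi with rfl | rfl
          · exact ha.1
          · exact ha.2
        · rw [Ideal.span_singleton_le_iff_mem]
          exact ⟨heP i0 hi0, heP i1 hi1⟩
      · exact le_antisymm (sup_le (h.P_le _) (h.P_le _)) htr
    obtain ⟨a, b, c, d, hm, hc, hd, hac, hbd⟩ := eig_main hBD hqm hG hA hB hC hNF.typ he0 hCD
      (hδP i0 hi0) (hδP i1 hi1)
    by_contra hk1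
    have hve : 0 < v.v (e : L) := (hvpos e hem).resolve_left heL
    have hraise : ∀ (n : ℤ) (u : R), Ge v n (u : L) → Ge v (n + 1) ((q e u : R) : L) := by
      intro n u hu
      by_cases h0 : ((q e u : R) : L) = 0
      · exact Or.inl h0
      have hu0 : (u : L) ≠ 0 := by
        intro h1
        have h2 : u = 0 := Subtype.ext h1
        apply h0
        have h3 : q e u = 0 := by
          rw [h2, hBD.skew, br_zero_left hBD, neg_zero]
        rw [h3]
        rfl
      have h1 := br_ge'_of_Wt h.surf B v hk heL hu0 (by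
        rw [hqL]
        exact mul_ne_zero heL h0)
      rw [hqL, v.map_mul _ _ heL h0] at h1
      have h2 := hu.resolve_left hu0
      right
      omega
    have hiter : ∀ (u : R) (n : ℕ), Ge v n (((q e)^[n] u : R) : L) := by
      intro u n
      induction n with
      | zero => exact hvint u
      | succ n ih =>
        rw [Function.iterate_succ_apply']
        have h1 := hraise n _ ih
        push_cast
        exact h1
    refine fin_contra R hvint hfrac (e : L) heL hve ?_
    intro n r
    exact poly_approx R h.res hvint (iter_gen hBD hqm hm hc hd hac hbd n) n (hiter a n)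
      (hiter b n) (Or.inr (by omega)) r

end H33

end LCY
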