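import Pool.Agent.Helper33.LCY.Comp

/-!
The normal form for the five types of equations.
-/

open IsLocalRing MvPowerSeries

namespace LCY

namespace H33

variable {R : Type} [CommRing R] [IsLocalRing R] [IsNoetherianRing R] [Algebra ℂ R]

omit [IsLocalRing R] [IsNoetherianRing R] in
theorem cmem (T : Ideal R) (k : ℕ) (u : R) (h : ((k + 1 : ℕ) : R) * u ∈ T) : u ∈ T := by
  have h1 := T.mul_mem_left (algebraMap ℂ R (1 / ((k + 1 : ℕ) : ℂ))) h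
  have h2 : algebraMap ℂ R (1 / ((k + 1 : ℕ) : ℂ)) * (((k + 1 : ℕ) : R) * u) = u := by
    have h3 : ((k + 1 : ℕ) : R) = algebraMap ℂ R ((k + 1 : ℕ) : ℂ) := (map_natCast _ _).symm
    rw [← mul_assoc, h3, ← map_mul, one_div_mul_cancel (Nat.cast_ne_zero.2 (Nat.succ_ne_zero k)),
      map_one, one_mul]
  rwa [h2] at h1

section

variable {Q : Type} [CommRing Q] [IsLocalRing Q] {ι : R →+* Q} {X Y Z : Q}

/-- generators of the maximal ideal that are independent modulo its square -/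
structure GE (Q : Type) [CommRing Q] [IsLocalRing Q] (X Y Z : Q) : Prop where
  gen : maximalIdeal Q = Ideal.span {X, Y, Z}
  emb : ∀ a b c : Q, a * X + b * Y + c * Z ∈ maximalIdeal Q ^ 2 →
      a ∈ maximalIdeal Q ∧ b ∈ maximalIdeal Q ∧ c ∈ maximalIdeal Q

theorem GE.mem (h : GE Q X Y Z) : X ∈ maximalIdeal Q ∧ Y ∈ maximalIdeal Q ∧
    Z ∈ maximalIdeal Q := by
  rw [h.gen]
  exact ⟨Ideal.subset_span (by simp), Ideal.subset_span (by simp), Ideal.subset_span (by simp)⟩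

omit [IsNoetherianRing R] [Algebra ℂ R] in
theorem pm {u : R} {k l : ℕ} (hu : u ∈ maximalIdeal R) (hk : l ≤ k) :
    u ^ k ∈ maximalIdeal R ^ l := Ideal.pow_le_pow_right hk (Ideal.pow_mem_pow hu _)

theorem nf_A (hι : Dense ι) (hQ : GE Q X Y Z) (k : ℕ) (hk : 1 ≤ k)
    (hf : X ^ 2 + Y ^ 2 + Z ^ (k + 1) = 0) : ∃ M, ∀ N, ∃ x y z g h, NF R M N x y z g h := by
  refine ⟨1 + (1 + (k + 1)), fun N => ?_⟩
  obtain ⟨n, hn⟩ : ∃ n, n = N + (1 + (1 + (k + 1))) + 3 := ⟨_, rfl⟩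
  obtain ⟨x, hx⟩ := hι.approx n X
  obtain ⟨y, hy⟩ := hι.approx n Y
  obtain ⟨z, hz⟩ := hι.approx n Z
  have hxm := tr_x hι hQ.mem.1 (by omega) hx
  have hym := tr_x hι hQ.mem.2.1 (by omega) hy
  have hzm := tr_x hι hQ.mem.2.2 (by omega) hz
  have hF : x ^ 2 + y ^ 2 + z ^ (k + 1) ∈ maximalIdeal R ^ n := by
    rw [← hι.mem, ← Ideal.Quotient.eq_zero_iff_mem]
    simp only [map_add, map_pow]
    rw [← Ideal.Quotient.eq.2 hx, ← Ideal.Quotient.eq.2 hy, ← Ideal.Quotient.eq.2 hz,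
      ← map_pow, ← map_pow, ← map_pow, ← map_add, ← map_add, hf, map_zero]
  refine ⟨x, y, z, 2 * y, (k + 1 : ℕ) * z ^ k, ?_⟩
  set T := Ideal.span {x, 2 * y} ⊔ maximalIdeal R ^ n with hT
  have t1 : x ∈ T := (le_sup_left : _ ≤ T) (Ideal.subset_span (by simp))
  have t2 : 2 * y ∈ T := (le_sup_left : _ ≤ T) (Ideal.subset_span (by simp))
  have t3 := (le_sup_right : _ ≤ T) hF
  have t4 : y ∈ T := cmem T 1 y (by
    have : ((1 + 1 : ℕ) : R) = 2 := by norm_num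
    rw [this]
    exact t2)
  refine NF.build hι hQ.gen hQ.emb hn hx hy hz hF ?_ ?_ ?_ ?_ ?_ ?_
  · intro br hbr w
    rw [hbr.add_left, hbr.add_left, br_pow_left hbr z w k, br_pow_left hbr x w 1,
      br_pow_left hbr y w 1]
    push_cast
    ring
  · exact Ideal.mul_mem_left _ _ hym
  · exact Ideal.mul_mem_left _ _ (Ideal.pow_mem_of_mem _ hzm _ (by omega))
  · rw [pow_one]
    exact t4
  · have e1 : z ^ (k + 1) = (x ^ 2 + y ^ 2 + z ^ (k + 1)) - x * x - y * y := by ring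
    rw [e1]
    exact T.sub_mem (T.sub_mem t3 (T.mul_mem_left _ t1)) (T.mul_mem_left _ t4)
  · left
    refine ⟨by rw [sub_self]; exact Submodule.zero_mem _, ?_⟩
    rcases hk.lt_or_eq with hk1 | hk1
    · right
      exact Ideal.mul_mem_left _ _ (pm hzm hk1)
    · left
      rw [← hk1]
      have e1 : ((1 + 1 : ℕ) : R) * z ^ 1 - 2 * z = 0 := by
        push_cast
        ring
      rw [e1]
      exact Submodule.zero_mem _

theorem nf_D (hι : Dense ι) (hQ : GE Q X Y Z)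
    (hE : ∀ a1 a2 a3 b1 b2 b3 : Q, (a1 * X + a2 * Y + a3 * Z) * (b1 * X + b2 * Y + b3 * Z) ∈
      maximalIdeal Q ^ 3 → a2 * b2 ∈ maximalIdeal Q ∧ a3 * b3 ∈ maximalIdeal Q ∧
      a2 * b3 + a3 * b2 ∈ maximalIdeal Q) (k : ℕ)
    (hf : X ^ 2 + Z ^ 2 * Y + Y ^ (k + 3) = 0) :
    ∃ M, ∀ N, ∃ x y z g h, NF R M N x y z g h := by
  refine ⟨1 + ((k + 3) + 4), fun N => ?_⟩
  obtain ⟨n, hn⟩ : ∃ n, n = N + (1 + ((k + 3) + 4)) + 3 := ⟨_, rfl⟩
  obtain ⟨x, hx⟩ := hι.approx n X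
  obtain ⟨y, hy⟩ := hι.approx n Y
  obtain ⟨z, hz⟩ := hι.approx n Z
  have hxm := tr_x hι hQ.mem.1 (by omega) hx
  have hym := tr_x hι hQ.mem.2.1 (by omega) hy
  have hzm := tr_x hι hQ.mem.2.2 (by omega) hz
  have hF : x ^ 2 + z ^ 2 * y + y ^ (k + 3) ∈ maximalIdeal R ^ n := by
    rw [← hι.mem, ← Ideal.Quotient.eq_zero_iff_mem]
    simp only [map_add, map_pow, map_mul]
    rw [← Ideal.Quotient.eq.2 hx, ← Ideal.Quotient.eq.2 hy, ← Ideal.Quotient.eq.2 hz,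
      ← map_pow, ← map_pow, ← map_pow, ← map_mul, ← map_add, ← map_add, hf, map_zero]
  refine ⟨x, y, z, z ^ 2 + (k + 3 : ℕ) * y ^ (k + 2), 2 * z * y, ?_⟩
  have hgm : z ^ 2 + (k + 3 : ℕ) * y ^ (k + 2) ∈ maximalIdeal R ^ 2 :=
    Ideal.add_mem _ (pm hzm le_rfl) (Ideal.mul_mem_left _ _ (pm hym (by omega)))
  have hhm : 2 * z * y ∈ maximalIdeal R ^ 2 := by
    rw [mul_assoc, pow_two]
    exact Ideal.mul_mem_left _ _ (Ideal.mul_mem_mul hzm hym)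
  set T := Ideal.span {x, z ^ 2 + (k + 3 : ℕ) * y ^ (k + 2)} ⊔ maximalIdeal R ^ n with hT
  have t1 : x ∈ T := (le_sup_left : _ ≤ T) (Ideal.subset_span (by simp))
  have t2 : z ^ 2 + (k + 3 : ℕ) * y ^ (k + 2) ∈ T :=
    (le_sup_left : _ ≤ T) (Ideal.subset_span (by simp))
  have t3 := (le_sup_right : _ ≤ T) hF
  have t4 : y ^ (k + 3) ∈ T := cmem T (k + 1) _ (by
    have e1 : ((k + 1 + 1 : ℕ) : R) * y ^ (k + 3) = y * (z ^ 2 + (k + 3 : ℕ) * y ^ (k + 2)) -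
        (x ^ 2 + z ^ 2 * y + y ^ (k + 3)) + x * x := by
      push_cast
      ring
    rw [e1]
    exact T.add_mem (T.sub_mem (T.mul_mem_left _ t2) t3) (T.mul_mem_left _ t1))
  have t5 : z ^ 2 * y ∈ T := by
    have e1 : z ^ 2 * y = (x ^ 2 + z ^ 2 * y + y ^ (k + 3)) - x * x - y ^ (k + 3) := by ring
    rw [e1]
    exact T.sub_mem (T.sub_mem t3 (T.mul_mem_left _ t1)) t4
  refine NF.build hι hQ.gen hQ.emb hn hx hy hz hF ?_ ?_ ?_ ?_ ?_ ?_
  · intro br hbr w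
    rw [hbr.add_left, hbr.add_left, hbr.mul_left, br_pow_left hbr y w (k + 2),
      br_pow_left hbr x w 1, br_pow_left hbr z w 1]
    push_cast
    ring
  · exact Ideal.pow_le_self two_ne_zero hgm
  · exact Ideal.pow_le_self two_ne_zero hhm
  · exact t4
  · have e1 : z ^ 4 = z ^ 2 * (z ^ 2 + (k + 3 : ℕ) * y ^ (k + 2)) -
        (k + 3 : ℕ) * y ^ (k + 1) * (z ^ 2 * y) := by ring
    rw [e1]
    exact T.sub_mem (T.mul_mem_left _ t2) (T.mul_mem_left _ t5)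
  · right
    refine ⟨hgm, hhm, ?_, tr_quad hι hE (by omega) hx hy hz⟩
    have e1 : x ^ 2 = (x ^ 2 + z ^ 2 * y + y ^ (k + 3)) - z ^ 2 * y - y ^ (k + 3) := by ring
    rw [e1]
    refine Ideal.sub_mem _ (Ideal.sub_mem _ (Ideal.pow_le_pow_right (by omega) hF) ?_)
      (pm hym (by omega))
    have e2 : (maximalIdeal R) ^ 3 = (maximalIdeal R) ^ 2 * maximalIdeal R := pow_succ _ _
    rw [e2]
    exact Ideal.mul_mem_mul (pm hzm le_rfl) hym

theorem nf_E (hι : Dense ι) (hQ : GE Q X Y Z)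
    (hE : ∀ a1 a2 a3 b1 b2 b3 : Q, (a1 * X + a2 * Y + a3 * Z) * (b1 * X + b2 * Y + b3 * Z) ∈
      maximalIdeal Q ^ 3 → a2 * b2 ∈ maximalIdeal Q ∧ a3 * b3 ∈ maximalIdeal Q ∧
      a2 * b3 + a3 * b2 ∈ maximalIdeal Q) (k : ℕ)
    (hf : X ^ 2 + Y ^ 3 + Z ^ (k + 4) = 0) :
    ∃ M, ∀ N, ∃ x y z g h, NF R M N x y z g h := by
  refine ⟨1 + (2 + (k + 4)), fun N => ?_⟩
  obtain ⟨n, hn⟩ : ∃ n, n = N + (1 + (2 + (k + 4))) + 3 := ⟨_, rfl⟩
  obtain ⟨x, hx⟩ := hι.approx n X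
  obtain ⟨y, hy⟩ := hι.approx n Y
  obtain ⟨z, hz⟩ := hι.approx n Z
  have hxm := tr_x hι hQ.mem.1 (by omega) hx
  have hym := tr_x hι hQ.mem.2.1 (by omega) hy
  have hzm := tr_x hι hQ.mem.2.2 (by omega) hz
  have hF : x ^ 2 + y ^ 3 + z ^ (k + 4) ∈ maximalIdeal R ^ n := by
    rw [← hι.mem, ← Ideal.Quotient.eq_zero_iff_mem]
    simp only [map_add, map_pow]
    rw [← Ideal.Quotient.eq.2 hx, ← Ideal.Quotient.eq.2 hy, ← Ideal.Quotient.eq.2 hz,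
      ← map_pow, ← map_pow, ← map_pow, ← map_add, ← map_add, hf, map_zero]
  refine ⟨x, y, z, 3 * y ^ 2, (k + 4 : ℕ) * z ^ (k + 3), ?_⟩
  have hgm : 3 * y ^ 2 ∈ maximalIdeal R ^ 2 := Ideal.mul_mem_left _ _ (pm hym (by omega))
  have hhm : (k + 4 : ℕ) * z ^ (k + 3) ∈ maximalIdeal R ^ 2 :=
    Ideal.mul_mem_left _ _ (pm hzm (by omega))
  set T := Ideal.span {x, 3 * y ^ 2} ⊔ maximalIdeal R ^ n with hT
  have t1 : x ∈ T := (le_sup_left : _ ≤ T) (Ideal.subset_span (by simp))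
  have t2 : 3 * y ^ 2 ∈ T := (le_sup_left : _ ≤ T) (Ideal.subset_span (by simp))
  have t3 := (le_sup_right : _ ≤ T) hF
  have t4 : y ^ 2 ∈ T := cmem T 2 _ (by
    have : ((2 + 1 : ℕ) : R) = 3 := by norm_num
    rw [this]
    exact t2)
  refine NF.build hι hQ.gen hQ.emb hn hx hy hz hF ?_ ?_ ?_ ?_ ?_ ?_
  · intro br hbr w
    rw [hbr.add_left, hbr.add_left, br_pow_left hbr z w (k + 3), br_pow_left hbr x w 1,
      br_pow_left hbr y w 2]
    push_cast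
    ring
  · exact Ideal.pow_le_self two_ne_zero hgm
  · exact Ideal.pow_le_self two_ne_zero hhm
  · exact t4
  · have e1 : z ^ (k + 4) = (x ^ 2 + y ^ 3 + z ^ (k + 4)) - x * x - y * y ^ 2 := by ring
    rw [e1]
    exact T.sub_mem (T.sub_mem t3 (T.mul_mem_left _ t1)) (T.mul_mem_left _ t4)
  · right
    refine ⟨hgm, hhm, ?_, tr_quad hι hE (by omega) hx hy hz⟩
    have e1 : x ^ 2 = (x ^ 2 + y ^ 3 + z ^ (k + 4)) - y ^ 3 - z ^ (k + 4) := by ring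
    rw [e1]
    exact Ideal.sub_mem _ (Ideal.sub_mem _ (Ideal.pow_le_pow_right (by omega) hF)
      (pm hym (by omega))) (pm hzm (by omega))

theorem nf_E7 (hι : Dense ι) (hQ : GE Q X Y Z)
    (hE : ∀ a1 a2 a3 b1 b2 b3 : Q, (a1 * X + a2 * Y + a3 * Z) * (b1 * X + b2 * Y + b3 * Z) ∈
      maximalIdeal Q ^ 3 → a2 * b2 ∈ maximalIdeal Q ∧ a3 * b3 ∈ maximalIdeal Q ∧
      a2 * b3 + a3 * b2 ∈ maximalIdeal Q)
    (hf : X ^ 2 + Y ^ 3 + Y * Z ^ 3 = 0) :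
    ∃ M, ∀ N, ∃ x y z g h, NF R M N x y z g h := by
  refine ⟨1 + (3 + 6), fun N => ?_⟩
  obtain ⟨n, hn⟩ : ∃ n, n = N + (1 + (3 + 6)) + 3 := ⟨_, rfl⟩
  obtain ⟨x, hx⟩ := hι.approx n X
  obtain ⟨y, hy⟩ := hι.approx n Y
  obtain ⟨z, hz⟩ := hι.approx n Z
  have hxm := tr_x hι hQ.mem.1 (by omega) hx
  have hym := tr_x hι hQ.mem.2.1 (by omega) hy
  have hzm := tr_x hι hQ.mem.2.2 (by omega) hz
  have hF : x ^ 2 + y ^ 3 + y * z ^ 3 ∈ maximalIdeal R ^ n := by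
    rw [← hι.mem, ← Ideal.Quotient.eq_zero_iff_mem]
    simp only [map_add, map_pow, map_mul]
    rw [← Ideal.Quotient.eq.2 hx, ← Ideal.Quotient.eq.2 hy, ← Ideal.Quotient.eq.2 hz,
      ← map_pow, ← map_pow, ← map_pow, ← map_mul, ← map_add, ← map_add, hf, map_zero]
  refine ⟨x, y, z, 3 * y ^ 2 + z ^ 3, 3 * y * z ^ 2, ?_⟩
  have hgm : 3 * y ^ 2 + z ^ 3 ∈ maximalIdeal R ^ 2 :=
    Ideal.add_mem _ (Ideal.mul_mem_left _ _ (pm hym (by omega))) (pm hzm (by omega))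
  have hhm : 3 * y * z ^ 2 ∈ maximalIdeal R ^ 2 :=
    Ideal.mul_mem_left _ _ (pm hzm (by omega))
  set T := Ideal.span {x, 3 * y ^ 2 + z ^ 3} ⊔ maximalIdeal R ^ n with hT
  have t1 : x ∈ T := (le_sup_left : _ ≤ T) (Ideal.subset_span (by simp))
  have t2 : 3 * y ^ 2 + z ^ 3 ∈ T := (le_sup_left : _ ≤ T) (Ideal.subset_span (by simp))
  have t3 := (le_sup_right : _ ≤ T) hF
  have t4 : y ^ 3 ∈ T := cmem T 1 _ (by
    have e1 : ((1 + 1 : ℕ) : R) * y ^ 3 = y * (3 * y ^ 2 + z ^ 3) -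
        (x ^ 2 + y ^ 3 + y * z ^ 3) + x * x := by
      push_cast
      ring
    rw [e1]
    exact T.add_mem (T.sub_mem (T.mul_mem_left _ t2) t3) (T.mul_mem_left _ t1))
  refine NF.build hι hQ.gen hQ.emb hn hx hy hz hF ?_ ?_ ?_ ?_ ?_ ?_
  · intro br hbr w
    rw [hbr.add_left, hbr.add_left, hbr.mul_left, br_pow_left hbr z w 2,
      br_pow_left hbr x w 1, br_pow_left hbr y w 2]
    push_cast
    ring
  · exact Ideal.pow_le_self two_ne_zero hgm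
  · exact Ideal.pow_le_self two_ne_zero hhm
  · exact t4
  · have e1 : z ^ 6 = (z ^ 3 - 3 * y ^ 2) * (3 * y ^ 2 + z ^ 3) + 9 * y * y ^ 3 := by ring
    rw [e1]
    exact T.add_mem (T.mul_mem_left _ t2) (T.mul_mem_left _ t4)
  · right
    refine ⟨hgm, hhm, ?_, tr_quad hι hE (by omega) hx hy hz⟩
    have e1 : x ^ 2 = (x ^ 2 + y ^ 3 + y * z ^ 3) - y ^ 3 - y * z ^ 3 := by ring
    rw [e1]
    exact Ideal.sub_mem _ (Ideal.sub_mem _ (Ideal.pow_le_pow_right (by omega) hF)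
      (pm hym (by omega))) (Ideal.mul_mem_left _ _ (pm hzm (by omega)))

end

theorem exists_NF {f : PS} (hf : IsADE f) [IsLocalRing (PS ⧸ Ideal.span {f})]
    {ι : R →+* PS ⧸ Ideal.span {f}} (hι : Dense ι) :
    ∃ M, ∀ N, ∃ x y z g h, NF R M N x y z g h := by
  have hX : ∀ i, (X i : PS) ∈ MA := X_mem_MA
  have h2 : ∀ i (k : ℕ), 2 ≤ k → (X i : PS) ^ k ∈ MA ^ 2 := fun i k hk =>
    Ideal.pow_le_pow_right hk (Ideal.pow_mem_pow (hX i) k)
  have h3 : ∀ i (k : ℕ), 3 ≤ k → (X i : PS) ^ k ∈ MA ^ 3 := fun i k hk =>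
    Ideal.pow_le_pow_right hk (Ideal.pow_mem_pow (hX i) k)
  have hf0 : qm f f = 0 := Ideal.Quotient.eq_zero_iff_mem.2 (Ideal.mem_span_singleton_self f)
  have ge : f ∈ MA ^ 2 → GE (PS ⧸ Ideal.span {f}) (qm f (X 0)) (qm f (X 1)) (qm f (X 2)) :=
    fun h => ⟨q_gen (Ideal.pow_le_self two_ne_zero h), q_emb h⟩
  have hf2 : f - X 0 ^ 2 ∈ MA ^ 3 → f ∈ MA ^ 2 := by
    intro h
    have h4 := Ideal.add_mem _ (Ideal.pow_le_pow_right (by norm_num : 2 ≤ 3) h) (h2 0 2 le_rfl)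
    rwa [sub_add_cancel] at h4
  generalize hff : f = F at hf
  cases hf with
  | A k hk =>
    refine nf_A hι (ge ?_) k hk ?_
    · rw [hff]
      exact Ideal.add_mem _ (Ideal.add_mem _ (h2 0 2 le_rfl) (h2 1 2 le_rfl)) (h2 2 _ (by omega))
    · rw [← map_pow, ← map_pow, ← map_pow, ← map_add, ← map_add, ← hff, hf0]
  | D k hk =>
    obtain ⟨k, rfl⟩ := Nat.exists_eq_add_of_le hk
    have hk' : 4 + k - 1 = k + 3 := by omega
    rw [hk'] at hff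
    have h5 : f - X 0 ^ 2 ∈ MA ^ 3 := by
      have e1 : f - X 0 ^ 2 = X 1 ^ 2 * X 2 + X 2 ^ (k + 3) := by
        rw [hff]
        ring
      rw [e1]
      refine Ideal.add_mem _ ?_ (h3 2 _ (by omega))
      rw [pow_succ MA 2]
      exact Ideal.mul_mem_mul (h2 1 2 le_rfl) (hX 2)
    have hQ := ge (hf2 h5)
    refine nf_D (X := qm f (X 0)) (Y := qm f (X 2)) (Z := qm f (X 1)) hι ⟨?_, ?_⟩ ?_ k ?_
    · rw [hQ.gen, Set.pair_comm (qm f (X 1))]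
    · intro a b c h
      have h6 := hQ.emb a c b (by
        have e1 : a * qm f (X 0) + c * qm f (X 1) + b * qm f (X 2) =
          a * qm f (X 0) + b * qm f (X 2) + c * qm f (X 1) := by ring
        rw [e1]
        exact h)
      exact ⟨h6.1, h6.2.2, h6.2.1⟩
    · intro a1 a2 a3 b1 b2 b3 h
      have h6 := q_quad h5 a1 a3 a2 b1 b3 b2 (by
        have e1 : (a1 * qm f (X 0) + a3 * qm f (X 1) + a2 * qm f (X 2)) *
          (b1 * qm f (X 0) + b3 * qm f (X 1) + b2 * qm f (X 2)) =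
          (a1 * qm f (X 0) + a2 * qm f (X 2) + a3 * qm f (X 1)) *
          (b1 * qm f (X 0) + b2 * qm f (X 2) + b3 * qm f (X 1)) := by ring
        rw [e1]
        exact h)
      refine ⟨h6.2.1, h6.1, ?_⟩
      rw [add_comm]
      exact h6.2.2
    · rw [← map_pow, ← map_pow, ← map_pow, ← map_mul, ← map_add, ← map_add, ← hff, hf0]
  | E6 =>
    have h5 : f - X 0 ^ 2 ∈ MA ^ 3 := by
      have e1 : f - X 0 ^ 2 = X 1 ^ 3 + X 2 ^ 4 := by
        rw [hff]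
        ring
      rw [e1]
      exact Ideal.add_mem _ (h3 1 3 le_rfl) (h3 2 4 (by norm_num))
    refine nf_E hι (ge (hf2 h5)) (q_quad h5) 0 ?_
    rw [← map_pow, ← map_pow, ← map_pow, ← map_add, ← map_add, ← hff, hf0]
  | E7 =>
    have h5 : f - X 0 ^ 2 ∈ MA ^ 3 := by
      have e1 : f - X 0 ^ 2 = X 1 ^ 3 + X 1 * X 2 ^ 3 := by
        rw [hff]
        ring
      rw [e1]
      exact Ideal.add_mem _ (h3 1 3 le_rfl) (Ideal.mul_mem_left _ _ (h3 2 3 le_rfl))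
    refine nf_E7 hι (ge (hf2 h5)) (q_quad h5) ?_
    rw [← map_pow, ← map_pow, ← map_pow, ← map_mul, ← map_add, ← map_add, ← hff, hf0]
  | E8 =>
    have h5 : f - X 0 ^ 2 ∈ MA ^ 3 := by
      have e1 : f - X 0 ^ 2 = X 1 ^ 3 + X 2 ^ 5 := by
        rw [hff]
        ring
      rw [e1]
      exact Ideal.add_mem _ (h3 1 3 le_rfl) (h3 2 5 (by norm_num))
    refine nf_E hι (ge (hf2 h5)) (q_quad h5) 1 ?_
    rw [← map_pow, ← map_pow, ← map_pow, ← map_add, ← map_add, ← hff, hf0]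

end H33

end LCY
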